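import Mathlib

/-!
# MP_ecc237_nt: definitions for the statement in the words of the problem file
-/

set_option autoImplicit false

open MeasureTheory UpperHalfPlane

namespace Pool.Agent.Helper23.EC.BK

/-- The modified Bessel function of the first kind of order `0`, by its power series
`I_0(t) = Σ_k (t/2)^(2k) / (k!)^2`. -/
noncomputable def I0 (t : ℝ) : ℝ := ∑' k : ℕ, (t / 2) ^ (2 * k) / (k.factorial : ℝ) ^ 2

/-- The modified Bessel function of the second kind of order `0`,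
`K_0(t) = ∫_0^∞ exp(-t cosh u) du` for `t > 0`. -/
noncomputable def K0 (t : ℝ) : ℝ := ∫ u in Set.Ioi (0 : ℝ), Real.exp (-(t * Real.cosh u))

/-- The Bessel moment `IKM(a,b;n) = ∫_0^∞ I_0(t)^a K_0(t)^b t^n dt`. -/
noncomputable def IKM (a b n : ℕ) : ℝ := ∫ t in Set.Ioi (0 : ℝ), I0 t ^ a * K0 t ^ b * t ^ n

/-- The moment `IKM(a,b;n)` converges. -/
def IKMConverges (a b n : ℕ) : Prop :=
  IntegrableOn (fun t : ℝ => I0 t ^ a * K0 t ^ b * t ^ n) (Set.Ioi 0)

/-- `f_{4,6}(τ) = (η(τ) η(2τ) η(3τ) η(6τ))^2`, with the Dedekind eta function of Mathlib. -/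
noncomputable def f46 (τ : ℍ) : ℂ :=
  (ModularForm.eta (τ : ℂ) * ModularForm.eta (2 * (τ : ℂ)) * ModularForm.eta (3 * (τ : ℂ)) *
    ModularForm.eta (6 * (τ : ℂ))) ^ 2

/-- The coefficients `a_n` of `f_{4,6}(τ) = Σ a_n q^n`, `q = exp(2πiτ)` (Mathlib's `q`-expansion
with period `1`). -/
noncomputable def a46 (n : ℕ) : ℂ := (qExpansion 1 f46).coeff n

end Pool.Agent.Helper23.EC.BK
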