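import Pool.Agent.Helper23.EC.BKDefs

/-!
# MP_ecc237_nt: the eta product, its q-expansion and Hecke's bound
-/

set_option autoImplicit false

open MeasureTheory Filter Topology Complex
open UpperHalfPlane hiding I
open scoped Manifold ContDiff

namespace Pool.Agent.Helper23.EC.BK

/-- the eta product on the whole plane -/
noncomputable def g46 (z : ℂ) : ℂ :=
  (ModularForm.eta z * ModularForm.eta (2 * z) * ModularForm.eta (3 * z) *
    ModularForm.eta (6 * z)) ^ 2

theorem f46_eq (τ : ℍ) : f46 τ = g46 (τ : ℂ) := rfl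

theorem qp24 (z : ℂ) (w : ℂ) :
    Function.Periodic.qParam 24 (z + w) =
      Complex.exp (2 * Real.pi * I * w / 24) * Function.Periodic.qParam 24 z := by
  unfold Function.Periodic.qParam
  rw [← Complex.exp_add]
  congr 1
  push_cast
  ring

theorem qp1 (z : ℂ) (k : ℕ) :
    Function.Periodic.qParam 1 (z + k) = Function.Periodic.qParam 1 z := by
  unfold Function.Periodic.qParam
  rw [show 2 * (Real.pi : ℂ) * I * (z + k) / ((1 : ℝ) : ℂ) =
    2 * Real.pi * I * z / ((1 : ℝ) : ℂ) + (k : ℤ) * (2 * Real.pi * I) by push_cast; ring]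
  rw [Complex.exp_add, Complex.exp_int_mul_two_pi_mul_I, mul_one]

theorem eta_add (z : ℂ) (k : ℕ) :
    ModularForm.eta (z + k) = Complex.exp (2 * Real.pi * I * k / 24) * ModularForm.eta z := by
  unfold ModularForm.eta ModularForm.eta_q
  rw [qp24, qp1]
  ring

theorem g46_add (z : ℂ) : g46 (z + 1) = g46 z := by
  unfold g46
  have h1 : ModularForm.eta (z + 1) = Complex.exp (2 * Real.pi * I * (1 : ℕ) / 24) *
      ModularForm.eta z := by
    rw [← eta_add]; norm_num
  have h2 : ModularForm.eta (2 * (z + 1)) = Complex.exp (2 * Real.pi * I * (2 : ℕ) / 24) *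
      ModularForm.eta (2 * z) := by
    rw [← eta_add]; congr 1; push_cast; ring
  have h3 : ModularForm.eta (3 * (z + 1)) = Complex.exp (2 * Real.pi * I * (3 : ℕ) / 24) *
      ModularForm.eta (3 * z) := by
    rw [← eta_add]; congr 1; push_cast; ring
  have h6 : ModularForm.eta (6 * (z + 1)) = Complex.exp (2 * Real.pi * I * (6 : ℕ) / 24) *
      ModularForm.eta (6 * z) := by
    rw [← eta_add]; congr 1; push_cast; ring
  rw [h1, h2, h3, h6]
  have e : (Complex.exp (2 * Real.pi * I * (1 : ℕ) / 24) * Complex.exp (2 * Real.pi * I * (2 : ℕ) / 24) *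
      Complex.exp (2 * Real.pi * I * (3 : ℕ) / 24) * Complex.exp (2 * Real.pi * I * (6 : ℕ) / 24)) ^ 2
        = 1 := by
    rw [← Complex.exp_add, ← Complex.exp_add, ← Complex.exp_add, ← Complex.exp_nat_mul]
    rw [← Complex.exp_two_pi_mul_I]
    congr 1
    push_cast
    ring
  calc _ = (Complex.exp (2 * Real.pi * I * (1 : ℕ) / 24) * Complex.exp (2 * Real.pi * I * (2 : ℕ) / 24) *
      Complex.exp (2 * Real.pi * I * (3 : ℕ) / 24) * Complex.exp (2 * Real.pi * I * (6 : ℕ) / 24)) ^ 2 *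
      (ModularForm.eta z * ModularForm.eta (2 * z) * ModularForm.eta (3 * z) *
        ModularForm.eta (6 * z)) ^ 2 := by ring
    _ = _ := by rw [e, one_mul]

theorem f46_per : Function.Periodic (f46 ∘ ofComplex) 1 := by
  intro z
  simp only [Function.comp_apply]
  by_cases hz : 0 < z.im
  · have hz1 : 0 < (z + 1).im := by simpa using hz
    rw [ofComplex_apply_of_im_pos hz, ofComplex_apply_of_im_pos hz1, f46_eq, f46_eq]
    exact g46_add z
  · have hz0 : z.im ≤ 0 := not_lt.mp hz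
    have hz1 : (z + 1).im ≤ 0 := by simpa using hz0
    rw [ofComplex_apply_eq_of_im_nonpos hz1 hz0]

theorem im_k {k : ℂ} {r : ℝ} (hk : k = r) (hr : 0 < r) {z : ℂ} (hz : 0 < z.im) :
    0 < (k * z).im := by
  rw [hk]; simp [hr, hz]

theorem f46_mdiff : MDiff f46 := by
  rw [UpperHalfPlane.mdifferentiable_iff]
  have hd : ∀ (k : ℂ) (r : ℝ), k = r → 0 < r →
      DifferentiableOn ℂ (fun z => ModularForm.eta (k * z)) {z | 0 < z.im} := by
    intro k r hk hr z hz
    have h1 := ModularForm.differentiableAt_eta_of_mem_upperHalfPlaneSet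
      (z := k * z) (im_k hk hr hz)
    exact (DifferentiableAt.comp z h1 (by fun_prop)).differentiableWithinAt
  have h1 : DifferentiableOn ℂ (fun z => ModularForm.eta z) {z | 0 < z.im} := by
    intro z hz
    exact (ModularForm.differentiableAt_eta_of_mem_upperHalfPlaneSet
      (z := z) hz).differentiableWithinAt
  have h : DifferentiableOn ℂ g46 {z | 0 < z.im} :=
    (((h1.mul (hd 2 2 (by norm_num) (by norm_num))).mul
      (hd 3 3 (by norm_num) (by norm_num))).mul (hd 6 6 (by norm_num) (by norm_num))).pow 2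
  refine h.congr fun z hz => ?_
  simp only [Function.comp_apply]
  rw [ofComplex_apply_of_im_pos hz, f46_eq]

/-- Hecke's bound `|f(τ)| ≤ C / (im τ)^2`. -/
theorem f46_bound : ∃ C : ℝ, 0 < C ∧ ∀ τ : ℍ, ‖f46 τ‖ ≤ C / τ.im ^ 2 := by
  obtain ⟨C0, hC0⟩ := CuspFormClass.exists_bound CuspForm.discriminant
  set C : ℝ := max 1 C0 with hC
  have hC1 : 1 ≤ C := le_max_left _ _
  have hΔ : ∀ τ : ℍ, ‖ModularForm.eta (τ : ℂ)‖ ^ 24 ≤ C / τ.im ^ 6 := by
    intro τ
    have h := hC0 τ
    rw [CuspForm.coe_discriminant] at h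
    simp only [ModularForm.discriminant, norm_pow] at h
    have e : (τ.im : ℝ) ^ (((12 : ℤ) : ℝ) / 2 : ℝ) = τ.im ^ 6 := by
      rw [← Real.rpow_natCast]; norm_num
    rw [e] at h
    refine h.trans ?_
    have := τ.im_pos
    gcongr
    exact le_max_right _ _
  refine ⟨C, by linarith, fun τ => ?_⟩
  have hy := τ.im_pos
  have hk : ∀ (k : ℂ) (r : ℝ), k = r → 1 ≤ r →
      ‖ModularForm.eta (k * (τ : ℂ))‖ ^ 24 ≤ C / τ.im ^ 6 := by
    intro k r hkr hr
    have h := hΔ ⟨k * (τ : ℂ), im_k hkr (by linarith) τ.im_pos⟩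
    refine h.trans ?_
    have e : (⟨k * (τ : ℂ), im_k hkr (by linarith) τ.im_pos⟩ : ℍ).im = r * τ.im := by
      rw [← UpperHalfPlane.coe_im]
      simp [hkr]
    rw [e]
    have : τ.im ≤ r * τ.im := by nlinarith
    gcongr
  have a1 := hΔ τ
  have a2 := hk 2 2 (by norm_num) (by norm_num)
  have a3 := hk 3 3 (by norm_num) (by norm_num)
  have a6 := hk 6 6 (by norm_num) (by norm_num)
  have hD : 0 ≤ C / τ.im ^ 6 := by positivity
  have h12 : ‖f46 τ‖ ^ 12 ≤ (C / τ.im ^ 2) ^ 12 := by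
    calc ‖f46 τ‖ ^ 12 = ‖ModularForm.eta (τ : ℂ)‖ ^ 24 * ‖ModularForm.eta (2 * (τ : ℂ))‖ ^ 24 *
        ‖ModularForm.eta (3 * (τ : ℂ))‖ ^ 24 * ‖ModularForm.eta (6 * (τ : ℂ))‖ ^ 24 := by
          unfold f46
          rw [norm_pow, norm_mul, norm_mul, norm_mul]
          ring
      _ ≤ (C / τ.im ^ 6) * (C / τ.im ^ 6) * (C / τ.im ^ 6) * (C / τ.im ^ 6) := by
          gcongr
      _ = C ^ 4 / τ.im ^ 24 := by
          field_simp
      _ ≤ C ^ 12 / τ.im ^ 24 := by
          gcongr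
          norm_num
      _ = (C / τ.im ^ 2) ^ 12 := by
          rw [div_pow, ← pow_mul]
  exact (pow_le_pow_iff_left₀ (norm_nonneg _) (by positivity) (by norm_num)).mp h12

theorem f46_bdd : IsBoundedAtImInfty f46 := by
  obtain ⟨C, hC, h⟩ := f46_bound
  rw [UpperHalfPlane.isBoundedAtImInfty_iff]
  refine ⟨C, 1, fun z hz => (h z).trans ?_⟩
  have : (1 : ℝ) ≤ z.im ^ 2 := one_le_pow₀ hz
  exact div_le_self hC.le this

/-- The `q`-expansion. -/
theorem f46_hasSum (τ : ℍ) :
    HasSum (fun n : ℕ => a46 n * Complex.exp (2 * Real.pi * I * n * τ)) (f46 τ) := by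
  have h := UpperHalfPlane.hasSum_qExpansion (h := 1) one_pos (by exact_mod_cast f46_per)
    f46_mdiff f46_bdd τ
  convert h using 2 with n
  rw [smul_eq_mul]
  congr 1
  unfold Function.Periodic.qParam
  rw [← Complex.exp_nat_mul]
  congr 1
  push_cast
  ring

/-- Hecke's bound for the coefficients. -/
theorem a46_bound : ∃ C : ℝ, ∀ n : ℕ, n ≠ 0 → ‖a46 n‖ ≤ C * (n : ℝ) ^ 2 := by
  obtain ⟨C, hC, h⟩ := f46_bound
  refine ⟨Real.exp (2 * Real.pi) * C, fun n hn => ?_⟩
  have hn0 : (0 : ℝ) < n := by exact_mod_cast Nat.pos_of_ne_zero hn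
  have ht : (0 : ℝ) < 1 / n := by positivity
  have e := UpperHalfPlane.qExpansion_coeff_eq_intervalIntegral (h := 1) one_pos
    (by exact_mod_cast f46_per) f46_mdiff f46_bdd n ht
  unfold a46
  rw [e]
  have hb : ∀ u ∈ Set.uIoc (0 : ℝ) 1, ‖1 / Function.Periodic.qParam 1 ((u : ℂ) + (1 / n : ℝ) * I) ^ n *
      f46 ⟨(u : ℂ) + (1 / n : ℝ) * I, by simpa using ht⟩‖ ≤ Real.exp (2 * Real.pi) * C * (n : ℝ) ^ 2 := by
    intro u _
    rw [norm_mul, norm_div, norm_one, norm_pow, Function.Periodic.norm_qParam, ← Real.exp_nat_mul]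
    have e1 : (1 : ℝ) / Real.exp ((n : ℝ) * (-2 * Real.pi * ((u : ℂ) + (1 / n : ℝ) * I).im / 1)) =
        Real.exp (2 * Real.pi) := by
      rw [one_div, ← Real.exp_neg]
      congr 1
      simp
      field_simp
    rw [e1]
    have e2 := h ⟨(u : ℂ) + (1 / n : ℝ) * I, by simpa using ht⟩
    have e3 : (⟨(u : ℂ) + (1 / n : ℝ) * I, by simpa using ht⟩ : ℍ).im = 1 / n := by
      rw [← UpperHalfPlane.coe_im]
      simp
    rw [e3] at e2
    have e4 : C / (1 / (n : ℝ)) ^ 2 = C * (n : ℝ) ^ 2 := by field_simp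
    rw [e4] at e2
    calc _ ≤ Real.exp (2 * Real.pi) * (C * (n : ℝ) ^ 2) := by gcongr
      _ = _ := by ring
  have h2 := intervalIntegral.norm_integral_le_of_norm_le_const hb
  simpa using h2

theorem a46_summable : LSeriesSummable a46 5 := by
  obtain ⟨C, hC⟩ := a46_bound
  refine LSeriesSummable_of_le_const_mul_rpow (x := 3) (by norm_num) ⟨C, fun n hn => ?_⟩
  have := hC n hn
  rw [show (3 : ℝ) - 1 = ((2 : ℕ) : ℝ) by norm_num, Real.rpow_natCast]
  exact this

end Pool.Agent.Helper23.EC.BK
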