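import Pool.Agent.Helper23.EC.BKEta
import Pool.Agent.Helper23.EC.Final

/-!
# MP_ecc237_nt: the Dirichlet series at `5` as a Mellin integral, and the Bessel moments
-/

set_option autoImplicit false

open MeasureTheory Filter Topology Complex
open UpperHalfPlane hiding I

namespace Pool.Agent.Helper23.EC.BK

/-- the Euler product -/
noncomputable def PP (q : ℝ) : ℝ := ∏' n : ℕ, (1 - q ^ (n + 1))

theorem mul_PP {q : ℝ} (h0 : 0 ≤ q) (h1 : q < 1) : Multipliable fun n : ℕ => 1 - q ^ (n + 1) := by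
  apply multipliable_one_add_of_summable (f := fun n : ℕ => -q ^ (n + 1))
  have := (summable_nat_add_iff 1).mpr (summable_geometric_of_lt_one h0 h1)
  simpa [abs_of_nonneg h0] using this

theorem cast_PP {q : ℝ} (h0 : 0 ≤ q) (h1 : q < 1) :
    ((PP q : ℝ) : ℂ) = ∏' n : ℕ, (1 - (q : ℂ) ^ (n + 1)) := by
  have h := (mul_PP h0 h1).map_tprod Complex.ofRealHom Complex.continuous_ofReal
  unfold PP
  simpa using h

theorem eta_I {w : ℝ} (hw : 0 < w) : ModularForm.eta ((w : ℂ) * I) =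
    ((Real.exp (-(2 * Real.pi * w) / 24) * PP (Real.exp (-(2 * Real.pi * w))) : ℝ) : ℂ) := by
  have h1 : Real.exp (-(2 * Real.pi * w)) < 1 := by
    rw [Real.exp_lt_one_iff]
    have := Real.pi_pos
    have : 0 < 2 * Real.pi * w := by positivity
    linarith
  rw [Complex.ofReal_mul, cast_PP (Real.exp_pos _).le h1]
  unfold ModularForm.eta ModularForm.eta_q Function.Periodic.qParam
  have e1 : 2 * (Real.pi : ℂ) * I * ((w : ℂ) * I) / ((24 : ℝ) : ℂ) =
      ((-(2 * Real.pi * w) / 24 : ℝ) : ℂ) := by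
    push_cast
    have := I_sq
    linear_combination (2 * (Real.pi : ℂ) * w / 24) * this
  have e2 : 2 * (Real.pi : ℂ) * I * ((w : ℂ) * I) / ((1 : ℝ) : ℂ) =
      ((-(2 * Real.pi * w) : ℝ) : ℂ) := by
    push_cast
    have := I_sq
    linear_combination (2 * (Real.pi : ℂ) * w) * this
  rw [e1, e2, ← Complex.ofReal_exp, ← Complex.ofReal_exp]

theorem ff_eq {y : ℝ} (hy : 0 < y) : EC237.ff y = Real.exp (-(2 * Real.pi * y)) *
    (PP (Real.exp (-(2 * Real.pi * y))) * PP (Real.exp (-(2 * Real.pi * (2 * y)))) *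
      PP (Real.exp (-(2 * Real.pi * (3 * y)))) * PP (Real.exp (-(2 * Real.pi * (6 * y))))) ^ 2 := by
  have hpi := Real.pi_pos
  have hl : ∀ w : ℝ, 0 < w → Real.exp (-(2 * Real.pi * w)) < 1 := by
    intro w hw
    rw [Real.exp_lt_one_iff]
    have : 0 < 2 * Real.pi * w := by positivity
    linarith
  have m1 := mul_PP (Real.exp_pos _).le (hl y hy)
  have m2 := mul_PP (Real.exp_pos _).le (hl (2 * y) (by positivity))
  have m3 := mul_PP (Real.exp_pos _).le (hl (3 * y) (by positivity))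
  have m6 := mul_PP (Real.exp_pos _).le (hl (6 * y) (by positivity))
  unfold EC237.ff PP
  rw [← m1.tprod_mul m2, ← (m1.mul m2).tprod_mul m3, ← ((m1.mul m2).mul m3).tprod_mul m6,
    ← (((m1.mul m2).mul m3).mul m6).tprod_pow]
  congr 1
  refine tprod_congr fun n => ?_
  congr 1
  rw [← Real.exp_nat_mul, ← Real.exp_nat_mul, ← Real.exp_nat_mul, ← Real.exp_nat_mul]
  congr 1
  · congr 1
    · congr 1
      · congr 2; push_cast; ring
      · congr 2; push_cast; ring
    · congr 2; push_cast; ring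
  · congr 2; push_cast; ring

theorem f46_I {y : ℝ} (hy : 0 < y) (h : 0 < ((y : ℂ) * I).im) :
    f46 ⟨(y : ℂ) * I, h⟩ = ((EC237.ff y : ℝ) : ℂ) := by
  rw [f46_eq, ff_eq hy]
  show g46 ((y : ℂ) * I) = _
  unfold g46
  have h1 := eta_I hy
  have h2 := eta_I (w := 2 * y) (by positivity)
  rw [show ((2 * y : ℝ) : ℂ) * I = 2 * ((y : ℂ) * I) by push_cast; ring] at h2
  have h3 := eta_I (w := 3 * y) (by positivity)
  rw [show ((3 * y : ℝ) : ℂ) * I = 3 * ((y : ℂ) * I) by push_cast; ring] at h3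
  have h6 := eta_I (w := 6 * y) (by positivity)
  rw [show ((6 * y : ℝ) : ℂ) * I = 6 * ((y : ℂ) * I) by push_cast; ring] at h6
  rw [h1, h2, h3, h6, ← Complex.ofReal_mul, ← Complex.ofReal_mul, ← Complex.ofReal_mul,
    ← Complex.ofReal_pow]
  congr 1
  have e : Real.exp (-(2 * Real.pi * y)) = (Real.exp (-(2 * Real.pi * y) / 24) *
      Real.exp (-(2 * Real.pi * (2 * y)) / 24) * Real.exp (-(2 * Real.pi * (3 * y)) / 24) *
      Real.exp (-(2 * Real.pi * (6 * y)) / 24)) ^ 2 := by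
    rw [← Real.exp_add, ← Real.exp_add, ← Real.exp_add, ← Real.exp_nat_mul]
    congr 1
    push_cast
    ring
  generalize PP (Real.exp (-(2 * Real.pi * y))) = A
  generalize PP (Real.exp (-(2 * Real.pi * (2 * y)))) = B
  generalize PP (Real.exp (-(2 * Real.pi * (3 * y)))) = C
  generalize PP (Real.exp (-(2 * Real.pi * (6 * y)))) = D
  rw [e]
  ring

/-- The Dirichlet series of `f_{4,6}` at `5`, as a Mellin integral. -/
theorem lseries_eq : LSeries a46 5 =
    (((2 * Real.pi) ^ 5 / 24 * ∫ y in Set.Ioi (0:ℝ), EC237.ff y * y ^ 4 : ℝ) : ℂ) := by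
  have hpi := Real.pi_pos
  have a0 : a46 0 = 0 := by
    unfold a46
    rw [UpperHalfPlane.qExpansion_coeff_zero one_pos]
    · apply IsZeroAtImInfty.valueAtInfty_eq_zero
      obtain ⟨C, hC, h⟩ := f46_bound
      rw [UpperHalfPlane.isZeroAtImInfty_iff]
      intro ε hε
      refine ⟨max 1 (C / ε), fun z hz => (h z).trans ?_⟩
      have h1 : 1 ≤ z.im := (le_max_left _ _).trans hz
      have h2 : C / ε ≤ z.im := (le_max_right _ _).trans hz
      have h3 : z.im ≤ z.im ^ 2 := by nlinarith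
      rw [div_le_iff₀ (by positivity)]
      rw [div_le_iff₀ hε] at h2
      nlinarith
    · exact UpperHalfPlane.analyticAt_cuspFunction_zero one_pos (by exact_mod_cast f46_per)
        f46_mdiff f46_bdd
    · exact_mod_cast f46_per
  have hS : Summable fun n : ℕ => ‖a46 n‖ / (2 * Real.pi * n) ^ ((5 : ℂ).re) := by
    have h := (a46_summable.norm).mul_left (((2 * Real.pi) ^ (5 : ℝ))⁻¹)
    refine h.congr fun n => ?_
    rcases Nat.eq_zero_or_pos n with rfl | hn
    · simp [a0]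
    · rw [LSeries.term_of_ne_zero hn.ne', norm_div]
      have e5 : ((5 : ℂ).re) = 5 := by simp
      rw [e5, Real.mul_rpow (x := 2 * Real.pi) (y := (n : ℝ)) (by positivity) (by positivity),
        Complex.norm_natCast_cpow_of_pos hn, e5]
      generalize (2 * Real.pi) ^ (5 : ℝ) = A
      generalize (n : ℝ) ^ (5 : ℝ) = B
      rw [div_eq_mul_inv, div_eq_mul_inv, mul_inv]
      ring
  have hM := hasSum_mellin (a := a46) (p := fun n : ℕ => 2 * Real.pi * n)
    (F := fun y : ℝ => ((EC237.ff y : ℝ) : ℂ)) (s := 5) (fun n => by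
      rcases Nat.eq_zero_or_pos n with rfl | hn
      · left; exact a0
      · right; positivity) (by norm_num) (fun t ht => by
      have ht' : 0 < t := ht
      have him : 0 < ((t : ℂ) * I).im := by simpa using ht'
      have h := f46_hasSum ⟨(t : ℂ) * I, him⟩
      rw [f46_I ht' him] at h
      convert h using 2 with n
      congr 1
      rw [Complex.ofReal_exp]
      congr 1
      show _ = 2 * (Real.pi : ℂ) * I * n * ((t : ℂ) * I)
      push_cast
      have := I_sq
      linear_combination (-(2 * (Real.pi : ℂ) * n * t)) * this) hS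
  have hL : HasSum (fun n : ℕ => Complex.Gamma 5 * a46 n / ((2 * Real.pi * n : ℝ) : ℂ) ^ (5 : ℂ))
      (Complex.Gamma 5 * (((2 * Real.pi : ℝ) : ℂ) ^ 5)⁻¹ * LSeries a46 5) := by
    have h := (a46_summable.LSeriesHasSum).mul_left
      (Complex.Gamma 5 * (((2 * Real.pi : ℝ) : ℂ) ^ 5)⁻¹)
    refine Eq.mpr (congrArg (fun f : ℕ → ℂ => HasSum f (Complex.Gamma 5 *
      (((2 * Real.pi : ℝ) : ℂ) ^ 5)⁻¹ * LSeries a46 5)) (funext fun n => ?_)) h
    rcases Nat.eq_zero_or_pos n with rfl | hn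
    · simp [a0]
    · rw [LSeries.term_of_ne_zero hn.ne', Complex.cpow_ofNat, Complex.cpow_ofNat]
      push_cast
      rw [mul_pow]
      field_simp
  have hu := hM.unique hL
  have hG : Complex.Gamma 5 = 24 := by
    have h := Complex.Gamma_nat_eq_factorial 4
    rw [show ((4 : ℕ) : ℂ) + 1 = 5 by norm_num] at h
    rw [h]
    norm_num [Nat.factorial]
  have hm : mellin (fun y : ℝ => ((EC237.ff y : ℝ) : ℂ)) 5 =
      ((∫ y in Set.Ioi (0:ℝ), EC237.ff y * y ^ 4 : ℝ) : ℂ) := by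
    unfold mellin
    rw [← integral_complex_ofReal]
    refine setIntegral_congr_fun measurableSet_Ioi fun t _ => ?_
    simp only
    rw [show (5 : ℂ) - 1 = 4 by norm_num, Complex.cpow_ofNat, smul_eq_mul]
    push_cast
    ring
  rw [hm, hG] at hu
  have h2 : ((2 * Real.pi : ℝ) : ℂ) ^ 5 ≠ 0 := by
    have : (2 * Real.pi : ℝ) ≠ 0 := by positivity
    exact pow_ne_zero _ (by exact_mod_cast this)
  have h3 : LSeries a46 5 = ((2 * Real.pi : ℝ) : ℂ) ^ 5 / 24 *
      ((∫ y in Set.Ioi (0:ℝ), EC237.ff y * y ^ 4 : ℝ) : ℂ) := by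
    rw [hu]
    field_simp
  rw [h3]
  push_cast
  ring

/-! ## The Bessel side -/

theorem I0_eq (t : ℝ) : I0 t = EC237.Ib t := by
  have h := EC237.PI.g_ib.1 t
  have h2 : EC237.PI.Ic t = ((I0 t : ℝ) : ℂ) := by
    unfold EC237.PI.Ic I0
    rw [Complex.ofReal_tsum]
    refine tsum_congr fun k => ?_
    push_cast
    rw [pow_mul]
    congr 2
    ring
  rw [h2] at h
  exact_mod_cast h

theorem K0_eq (t : ℝ) : K0 t = EC237.Kb t := rfl

theorem conv {b n : ℕ} (hb : 4 ≤ b) (hb6 : b ≤ 6) (hn : n = 1 ∨ n = 3) :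
    IKMConverges (6 - b) b n := by
  obtain ⟨-, -, -, r4, r5⟩ := EC237.PI.g_rp
  unfold IKMConverges
  rcases hn with rfl | rfl
  · refine (r4 b (by omega) hb6).congr_fun (fun x _ => ?_) measurableSet_Ioi
    simp only [I0_eq, K0_eq]
    ring
  · refine (r5 b hb hb6).congr_fun (fun x _ => ?_) measurableSet_Ioi
    simp only [I0_eq, K0_eq]
    ring

theorem main : (∀ τ : ℍ, HasSum (fun n : ℕ => a46 n * Complex.exp (2 * Real.pi * I * n * τ)) (f46 τ)) ∧
    LSeriesSummable a46 5 ∧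
    (IKMConverges 0 6 1 ∧ IKMConverges 0 6 3 ∧ IKMConverges 2 4 1 ∧ IKMConverges 2 4 3) ∧
    ((Matrix.det !![IKM 0 6 1, IKM 0 6 3; IKM 2 4 1, IKM 2 4 3] : ℝ) : ℂ) =
      27 / (4 * Real.pi ^ 2) * LSeries a46 5 := by
  refine ⟨f46_hasSum, a46_summable, ⟨conv (b := 6) (by norm_num) (by norm_num) (Or.inl rfl),
    conv (b := 6) (by norm_num) (by norm_num) (Or.inr rfl),
    conv (b := 4) (by norm_num) (by norm_num) (Or.inl rfl),
    conv (b := 4) (by norm_num) (by norm_num) (Or.inr rfl)⟩, ?_⟩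
  have h := EC237.final EC237.Ib EC237.Kb EC237.ff (fun _ => rfl) (fun _ => rfl) (fun _ => rfl)
  have hd : Matrix.det !![IKM 0 6 1, IKM 0 6 3; IKM 2 4 1, IKM 2 4 3] =
      27 / (4 * Real.pi ^ 2) *
          ((2 * Real.pi) ^ 5 / 24 * ∫ y in Set.Ioi (0:ℝ), EC237.ff y * y ^ 4) := by
    rw [Matrix.det_fin_two_of, ← h]
    unfold IKM
    simp only [I0_eq, K0_eq, pow_zero, one_mul, pow_one]
  rw [hd, lseries_eq]
  push_cast
  ring

end Pool.Agent.Helper23.EC.BK
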