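import Pool.Agent.Helper23.EC.DGoalsM

/-!
# MP_ecc237_nt, Part D: assembly of (D.15).
-/

set_option autoImplicit false

open MeasureTheory Filter Topology Set

namespace EC237

theorem d15_of (hB7 : B7) (hN10 : N10) (hMPA : MPA) (hMPB : MPB) (hMVA : MVA) (hMVB : MVB)
    (hMVC : MVC) (hR1 : R1) (hR3 : R3) : D15 := by
  intro y hy
  obtain ⟨_, _, _, _, hder⟩ := hB7 y hy
  obtain ⟨hA, hB⟩ := hN10 y hy
  obtain ⟨pa1, pa2⟩ := hMPA y hy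
  obtain ⟨pb1, pb2⟩ := hMPB y hy
  obtain ⟨va1, va2⟩ := hMVA y hy
  have vb1 := hMVB y hy
  have vb2 := hMVC y hy
  obtain ⟨hM0, hM2, _⟩ := hR1 y hy
  have hC := hR3 y hy
  have eA : ∑' p : Tri, famA (t2 (y:ℂ)) p =
      -(((y * D1 y : ℝ) : ℂ) * (PiS (y:ℂ) 1 + 2 * PiS (y:ℂ) 3)) + 0 +
      (-(((y * D1 y : ℝ) : ℂ) * (PiS (y:ℂ) 1 + 2 * PiS (y:ℂ) 3)) + 0) :=
    hA.unique ((pa1.add va1).add (pa2.add va2))
  have eB : ∑' p : Tri, famB (t2 (y:ℂ)) p =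
      0 + 0 + (((y * D1 y : ℝ) : ℂ) * PiS (y:ℂ) 1 + 0) :=
    hB.unique ((pb1.add vb1).add (pb2.add vb2))
  have hd : HasDerivAt (fun t : ℝ => t * (M0 t * M2 t))
      (1 * (M0 y * M2 y) + y * (M0d y * M2 y + M0 y * M2d y)) y :=
    (hasDerivAt_id y).mul (hM0.mul hM2)
  have hyc : (y:ℂ) ≠ 0 := by exact_mod_cast hy.ne'
  have h1 := hder.comp_ofReal
  have e : ((y:ℂ)⁻¹ * (1 / 4 * ∑' p : Tri, famA (t2 (y:ℂ)) p +
      (∑' p : Tri, famB (t2 (y:ℂ)) p + CorS (y:ℂ)))) =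
      (D1 y : ℂ) * Pf (y:ℂ) + ((4 * (M0 y * M2 y) +
        4 / 3 * deriv (fun t : ℝ => t * (M0 t * M2 t)) y : ℝ) : ℂ) := by
    rw [hd.deriv, eA, eB, hC]
    unfold Pf
    push_cast
    field_simp
    ring
  rw [← e]
  exact h1

end EC237
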