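import Pool.Agent.Helper23.EC.Interface

/-!
# MP_ecc237_nt, Parts D and E: lattice definitions.
Paper: team store `ecc237_partD.md`, `ecc237_partE.md`.
-/

set_option autoImplicit false

open MeasureTheory Filter Topology Set

namespace EC237

/-- `K = n + i m w` for `κ = (n,m)`. -/
noncomputable def KA (w : ℂ) (k : ℤ × ℤ) : ℂ := (k.1:ℂ) + Complex.I * (k.2:ℂ) * w

/-- `K* = n - i m w`. -/
noncomputable def KB (w : ℂ) (k : ℤ × ℤ) : ℂ := (k.1:ℂ) - Complex.I * (k.2:ℂ) * w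

/-- `(K - αx)⁻¹ = Σ α^p a^{p+1} x^p`, `a = K⁻¹`. -/
noncomputable def gser (a α : ℂ) : PowerSeries ℂ := PowerSeries.mk (fun p => α ^ p * a ^ (p + 1))

/-- shifted lattice vectors `(κ, α)`: the vector `κ - αx`. -/
abbrev SV : Type := (ℤ × ℤ) × ℤ

/-- `A(v) = (K - αx)⁻¹` (zero when `κ = 0`). -/
noncomputable def As (w : ℂ) (v : SV) : PowerSeries ℂ := gser (KA w v.1)⁻¹ (v.2:ℂ)

/-- `B(v) = (K* - αx)⁻¹` (zero when `κ = 0`). -/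
noncomputable def Bs (w : ℂ) (v : SV) : PowerSeries ℂ := gser (KB w v.1)⁻¹ (v.2:ℂ)

/-- `h = w A B`. -/
noncomputable def hh (w : ℂ) (v : SV) : PowerSeries ℂ := w • (As w v * Bs w v)

/-- `χ = (wA² - wB²)/(2i)`. -/
noncomputable def xx (w : ℂ) (v : SV) : PowerSeries ℂ :=
  (w / (2 * Complex.I)) • (As w v ^ 2 - Bs w v ^ 2)

/-- `d = (wA² + wB²)/2 = δh`. -/
noncomputable def dd (w : ℂ) (v : SV) : PowerSeries ℂ := (w / 2) • (As w v ^ 2 + Bs w v ^ 2)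

/-- `X(v1,v2) = A1 B2 - B1 A2`. -/
noncomputable def XX (w : ℂ) (v1 v2 : SV) : PowerSeries ℂ := As w v1 * Bs w v2 - Bs w v1 * As w v2

/-- `P(v1,v2) = -i w² X12 A_s B_s`, `s = v1+v2`. -/
noncomputable def Pp (w : ℂ) (v1 v2 : SV) : PowerSeries ℂ :=
  (-(Complex.I * w ^ 2)) • (XX w v1 v2 * (As w (v1 + v2) * Bs w (v1 + v2)))

/-- `⟨v1,v2⟩ = h1 d2 - h2 d1`. -/
noncomputable def br (w : ℂ) (v1 v2 : SV) : PowerSeries ℂ := hh w v1 * dd w v2 - hh w v2 * dd w v1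

/-- `F(v1,v2) = ⟨1,2⟩ + ⟨2,s⟩ + ⟨s,1⟩`. -/
noncomputable def Ff (w : ℂ) (v1 v2 : SV) : PowerSeries ℂ :=
  br w v1 v2 + br w v2 (v1 + v2) + br w (v1 + v2) v1

/-- `Q_s`. -/
noncomputable def Qs (w : ℂ) (v1 v2 v3 v4 : SV) : PowerSeries ℂ :=
  (-(2 / 3 * w ^ 3)) • (XX w v1 v2 * XX w v3 v4 * (As w (v1 + v2) * Bs w (v1 + v2)))

/-- `T_s`. -/
noncomputable def Ts (w : ℂ) (v1 v2 v3 v4 : SV) : PowerSeries ℂ :=
  -(Pp w v1 v2 * (xx w v3 - xx w v4)) - Pp w v3 v4 * (xx w v1 - xx w v2)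
    + (1 / 3 : ℂ) • (Ff w v1 v2 * (hh w v3 - hh w v4) + Ff w v3 v4 * (hh w v1 - hh w v2))

/-- `Q_s + Q_t`. -/
noncomputable def Qst (w : ℂ) (v1 v2 v3 v4 : SV) : PowerSeries ℂ :=
  Qs w v1 v2 v3 v4 + Qs w v2 v3 v4 v1

/-- `T_s + T_t`. -/
noncomputable def Tt (w : ℂ) (v1 v2 v3 v4 : SV) : PowerSeries ℂ :=
  Ts w v1 v2 v3 v4 + Ts w v2 v3 v4 v1

/-- `E°(v1,v3) = -(2/3) w³ (A1B3 - A3B1)² (A1A3 + B1B3)`. -/
noncomputable def Eo (w : ℂ) (v1 v3 : SV) : PowerSeries ℂ :=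
  (-(2 / 3 * w ^ 3)) • (XX w v1 v3 ^ 2 * (As w v1 * As w v3 + Bs w v1 * Bs w v3))

/-- index type of the tuple sums: `(κ1, κ2, κ3)`, with `κ4 = -(κ1+κ2+κ3)`. -/
abbrev Tri : Type := (ℤ × ℤ) × (ℤ × ℤ) × (ℤ × ℤ)

/-- the fourth vector -/
def k4 (p : Tri) : ℤ × ℤ := -(p.1 + p.2.1 + p.2.2)

/-- classes `(c1,c2,c3)` for `(κ1,κ2,κ3)`. -/
def ClT (c1 c2 c3 : ℤ) (p : Tri) : Prop := InCl c1 p.1 ∧ InCl c2 p.2.1 ∧ InCl c3 p.2.2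

instance (c1 c2 c3 : ℤ) (p : Tri) : Decidable (ClT c1 c2 c3 p) := by unfold ClT; infer_instance

/-- family A term of a function `G` of four shifted vectors -/
noncomputable def famA (G : SV → SV → SV → SV → ℂ) (p : Tri) : ℂ :=
  if ClT 1 1 1 p then G (p.1, 1) (p.2.1, -1) (p.2.2, 1) (k4 p, -1) else 0

/-- family B term of a function `G` of four shifted vectors -/
noncomputable def famB (G : SV → SV → SV → SV → ℂ) (p : Tri) : ℂ :=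
  if ClT 1 5 5 p then G (p.1, 1) (p.2.1, -1) (p.2.2, 0) (k4 p, 0) else 0

/-- coefficient of `x²` of `Q_s + Q_t`. -/
noncomputable def q2 (w : ℂ) (v1 v2 v3 v4 : SV) : ℂ := PowerSeries.coeff 2 (Qst w v1 v2 v3 v4)

/-- coefficient of `x²` of `T_s + T_t`. -/
noncomputable def t2 (w : ℂ) (v1 v2 v3 v4 : SV) : ℂ := PowerSeries.coeff 2 (Tt w v1 v2 v3 v4)

/-- `Φ_B`. -/
noncomputable def PhiB (w : ℂ) : ℂ := 1 / 4 * ∑' p : Tri, famA (q2 w) p + ∑' p : Tri, famB (q2 w) p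

/-- `Π_{1r} = Σ_{κa∈Λ1, κb∈Λr} [x] P(κa - x, κb + x)`. -/
noncomputable def PiS (w : ℂ) (r : ℤ) : ℂ :=
  ∑' p : (ℤ × ℤ) × (ℤ × ℤ), if InCl 1 p.1 ∧ InCl r p.2 then
    PowerSeries.coeff 1 (Pp w (p.1, 1) (p.2, -1)) else 0

/-- `𝒫 = ½Π_{11} - Π_{13}`. -/
noncomputable def Pf (w : ℂ) : ℂ := 1 / 2 * PiS w 1 - PiS w 3

/-- Euclidean norm of a lattice vector -/
noncomputable def rk (k : ℤ × ℤ) : ℝ := Real.sqrt ((k.1:ℝ) ^ 2 + (k.2:ℝ) ^ 2)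

/-- `|κ|^{-5/2}` (zero for `κ = 0`). -/
noncomputable def pw (k : ℤ × ℤ) : ℝ := rk k ^ (-(5 / 2) : ℝ)

/-- the disc around `y0` used for locally uniform bounds -/
def Bd (y0 : ℝ) : Set ℂ := Metric.ball (y0 : ℂ) (y0 / 4)

/-- (D.16) `Φ_B(y) → 0` as `y → ∞`. -/
def D16 : Prop := Tendsto (fun y : ℝ => PhiB (y:ℂ)) atTop (𝓝 0)

/-- (E) the behaviour of `Φ_B` at `0`. -/
def PE : Prop := ∃ P : Polynomial ℝ, P.coeff 0 = 0 ∧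
  Tendsto (fun z : ℝ => (PhiB ((z⁻¹:ℝ):ℂ)).re - P.eval z) atTop (𝓝 (Real.pi ^ 3 * zeta5 / 36))

/-- (D.15) derivative of `Φ_B`. -/
def D15 : Prop := ∀ y : ℝ, 0 < y → HasDerivAt (fun t : ℝ => PhiB (t:ℂ))
  ((D1 y : ℂ) * Pf (y:ℂ) + ((4 * (M0 y * M2 y) +
    4 / 3 * deriv (fun t : ℝ => t * (M0 t * M2 t)) y : ℝ) : ℂ)) y

/-- (D.13) derivative of `𝒫`. -/
def D13 : Prop := ∀ y : ℝ, 0 < y →
  HasDerivAt (fun t : ℝ => Pf (t:ℂ)) ((-(sg y * D1 y) : ℝ) : ℂ) y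

end EC237
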