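import Pool.Agent.Helper23.EC.DDefs

/-!
# MP_ecc237_nt, Part D, blocks A (algebra, derivatives) and B (bounds, termwise differentiation).
-/

set_option autoImplicit false

open MeasureTheory Filter Topology Set

namespace EC237

/-- coefficientwise derivative -/
def HD (F : ℂ → PowerSeries ℂ) (G : PowerSeries ℂ) (w : ℂ) : Prop :=
  ∀ n : ℕ, HasDerivAt (fun u => PowerSeries.coeff n (F u)) (PowerSeries.coeff n G) w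

/-- `K - αx` as a power series -/
noncomputable def KAs (w : ℂ) (v : SV) : PowerSeries ℂ :=
  PowerSeries.C (KA w v.1) - PowerSeries.C (v.2:ℂ) * PowerSeries.X

/-- `K* - αx` as a power series -/
noncomputable def KBs (w : ℂ) (v : SV) : PowerSeries ℂ :=
  PowerSeries.C (KB w v.1) - PowerSeries.C (v.2:ℂ) * PowerSeries.X

/-- `ω + ω⁻¹` -/
noncomputable def om (w : ℂ) (v : SV) : PowerSeries ℂ := As w v * KBs w v + Bs w v * KAs w v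

/-- `δQ_s` -/
noncomputable def dQs (w : ℂ) (v1 v2 v3 v4 : SV) : PowerSeries ℂ :=
  (-(1 / 3 * w ^ 3)) • (XX w v1 v2 * XX w v3 v4 * (As w (v1 + v2) * Bs w (v1 + v2)) *
    (om w v1 + om w v2 + om w v3 + om w v4 + om w (v1 + v2)))

/-- `δP(v1,v2)`, (D.3) -/
noncomputable def dP (w : ℂ) (v1 v2 : SV) : PowerSeries ℂ :=
  hh w v2 * xx w v1 - hh w v1 * xx w v2 + (hh w (v1 + v2) * xx w v2 - hh w v2 * xx w (v1 + v2))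
    + (hh w v1 * xx w (v1 + v2) - hh w (v1 + v2) * xx w v1)

/-! ## Block A -/

/-- (A1) basic facts on `As`, `Bs`. -/
def A1 : Prop := ∀ w : ℂ, 0 < w.re →
  (∀ k : ℤ × ℤ, k ≠ 0 → KA w k ≠ 0 ∧ KB w k ≠ 0) ∧
  (∀ v : SV, v.1 ≠ 0 → KAs w v * As w v = 1 ∧ KBs w v * Bs w v = 1) ∧
  (∀ v : SV, As w (-v) = -As w v ∧ Bs w (-v) = -Bs w v) ∧
  (∀ v : SV, v.1 ≠ 0 →
    HD (fun u => As u v) (w⁻¹ • ((1 / 2 : ℂ) • (As w v ^ 2 * KBs w v - As w v))) w ∧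
    HD (fun u => Bs u v) (w⁻¹ • ((1 / 2 : ℂ) • (Bs w v ^ 2 * KAs w v - Bs w v))) w) ∧
  (∀ (F G : ℂ → PowerSeries ℂ) (F' G' : PowerSeries ℂ), HD F F' w → HD G G' w →
    HD (fun u => F u * G u) (F' * G w + F w * G') w)

/-- (A2) `δQ_s`. -/
def A2 : Prop := ∀ w : ℂ, 0 < w.re → ∀ v1 v2 v3 v4 : SV, v1.1 ≠ 0 → v2.1 ≠ 0 → v3.1 ≠ 0 → v4.1 ≠ 0 →
  v1.1 + v2.1 ≠ 0 → HD (fun u => Qs u v1 v2 v3 v4) (w⁻¹ • dQs w v1 v2 v3 v4) w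

/-- (A3) `δP`, (D.3). -/
def A3 : Prop := ∀ w : ℂ, 0 < w.re → ∀ v1 v2 : SV, v1.1 ≠ 0 → v2.1 ≠ 0 → v1.1 + v2.1 ≠ 0 →
  HD (fun u => Pp u v1 v2) (w⁻¹ • dP w v1 v2) w

/-- (A4) the four-point identity (D.4). -/
def A4 : Prop := ∀ w : ℂ, 0 < w.re → ∀ v1 v2 v3 v4 : SV, v1 + v2 + v3 + v4 = 0 →
  v1.1 ≠ 0 → v2.1 ≠ 0 → v3.1 ≠ 0 → v4.1 ≠ 0 → v1.1 + v2.1 ≠ 0 → v2.1 + v3.1 ≠ 0 →
  dQs w v1 v2 v3 v4 + dQs w v2 v3 v4 v1 = Tt w v1 v2 v3 v4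

/-- (A5) the case `s = 0`, (D.5). -/
def A5 : Prop := ∀ w : ℂ, 0 < w.re → ∀ v1 v3 : SV, v1.1 ≠ 0 → v3.1 ≠ 0 → -v1.1 + v3.1 ≠ 0 →
  dQs w (-v1) v3 (-v3) v1 = Tt w v1 (-v1) v3 (-v3) + Eo w v1 v3 ∧
  (∀ u : ℂ, Qs u v1 (-v1) v3 (-v3) = 0)

/-- (A6) conclusion of block A. -/
def A6 : Prop := ∀ w : ℂ, 0 < w.re →
  (∀ v1 v2 v3 v4 : SV, v1 + v2 + v3 + v4 = 0 →
    v1.1 ≠ 0 → v2.1 ≠ 0 → v3.1 ≠ 0 → v4.1 ≠ 0 → v1.1 + v2.1 ≠ 0 → v2.1 + v3.1 ≠ 0 →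
    HasDerivAt (fun u => q2 u v1 v2 v3 v4) (w⁻¹ * t2 w v1 v2 v3 v4) w) ∧
  (∀ v1 v3 : SV, v1.1 ≠ 0 → v3.1 ≠ 0 → -v1.1 + v3.1 ≠ 0 →
    HasDerivAt (fun u => q2 u v1 (-v1) v3 (-v3))
      (w⁻¹ * (t2 w v1 (-v1) v3 (-v3) + PowerSeries.coeff 2 (Eo w v1 v3))) w)

/-! ## Block B -/

/-- (B1) size of `K`. -/
def B1 : Prop := ∀ y0 : ℝ, 0 < y0 → ∃ c C : ℝ, 0 < c ∧ 0 < C ∧ ∀ w ∈ Bd y0, 0 < w.re ∧ ‖w‖ ≤ C ∧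
  ∀ k : ℤ × ℤ, c * rk k ≤ ‖KA w k‖ ∧ ‖KA w k‖ ≤ C * rk k ∧ c * rk k ≤ ‖KB w k‖ ∧ ‖KB w k‖ ≤ C * rk k

/-- (B2) coefficient bounds (D.6). -/
def B2 : Prop := ∀ y0 : ℝ, 0 < y0 → ∃ C : ℝ, 0 < C ∧ ∀ w ∈ Bd y0,
  (∀ v1 v2 : SV, |v1.2| ≤ 1 → |v2.2| ≤ 1 → v1.1 ≠ 0 → v2.1 ≠ 0 → v1.1 + v2.1 ≠ 0 →
    ‖PowerSeries.coeff 0 (XX w v1 v2)‖ ≤ C * rk (v1.1 + v2.1) ^ (1 / 2 : ℝ) * (pw v1.1 + pw v2.1) ∧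
    ‖PowerSeries.coeff 1 (XX w v1 v2)‖ ≤ C * rk (v1.1 + v2.1) ^ (-(1 / 2) : ℝ) * (pw v1.1 + pw v2.1) ∧
    ‖PowerSeries.coeff 2 (XX w v1 v2)‖ ≤ C * rk (v1.1 + v2.1) ^ (-1 : ℝ) * (pw v1.1 + pw v2.1)) ∧
  (∀ v : SV, |v.2| ≤ 2 → v.1 ≠ 0 → ∀ j : ℕ, j ≤ 2 →
    ‖PowerSeries.coeff j (As w v * Bs w v)‖ ≤ C * rk v.1 ^ (-(2 + (j:ℝ))))

/-- (B3) the bound for the coefficient of `x²` of `Q_s`. -/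
def B3 : Prop := ∀ y0 : ℝ, 0 < y0 → ∃ C : ℝ, 0 < C ∧ ∀ w ∈ Bd y0, ∀ v1 v2 v3 v4 : SV,
  |v1.2| ≤ 1 → |v2.2| ≤ 1 → |v3.2| ≤ 1 → |v4.2| ≤ 1 → v1 + v2 + v3 + v4 = 0 →
  v1.1 ≠ 0 → v2.1 ≠ 0 → v3.1 ≠ 0 → v4.1 ≠ 0 →
  ‖PowerSeries.coeff 2 (Qs w v1 v2 v3 v4)‖ ≤
    C * (pw (v1.1 + v2.1) * (pw v1.1 + pw v2.1) * (pw v3.1 + pw v4.1))

/-- (B4) summability of the majorants. -/
def B4 : Prop := Summable pw ∧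
  Summable (fun p : Tri => pw (p.1 + p.2.1) * (pw p.1 + pw p.2.1) * (pw p.2.2 + pw (k4 p))) ∧
  Summable (fun p : Tri => pw (p.2.1 + p.2.2) * (pw p.2.1 + pw p.2.2) * (pw (k4 p) + pw p.1)) ∧
  Summable (fun q : (ℤ × ℤ) × (ℤ × ℤ) =>
    pw q.1 * pw q.2 + pw q.1 * pw (q.1 + q.2) + pw q.2 * pw (q.1 + q.2))

/-- (B5) the bound for the coefficient of `x` of `P`. -/
def B5 : Prop := ∀ y0 : ℝ, 0 < y0 → ∃ C : ℝ, 0 < C ∧ ∀ w ∈ Bd y0, ∀ v1 v2 : SV,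
  |v1.2| ≤ 1 → |v2.2| ≤ 1 → v1.1 ≠ 0 → v2.1 ≠ 0 →
  ‖PowerSeries.coeff 1 (Pp w v1 v2)‖ ≤
    C * (pw v1.1 * pw v2.1 + pw v1.1 * pw (v1.1 + v2.1) + pw v2.1 * pw (v1.1 + v2.1))

/-- the `s = 0` correction sum -/
noncomputable def CorS (w : ℂ) : ℂ :=
  ∑' q : (ℤ × ℤ) × (ℤ × ℤ), if InCl 1 q.1 ∧ InCl 5 q.2 then
    PowerSeries.coeff 2 (Eo w (q.1, 1) (q.2, 0)) else 0

/-- (B6) summability of the correction. -/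
def B6 : Prop := ∀ y : ℝ, 0 < y → Summable (fun q : (ℤ × ℤ) × (ℤ × ℤ) =>
  if InCl 1 q.1 ∧ InCl 5 q.2 then PowerSeries.coeff 2 (Eo (y:ℂ) (q.1, 1) (q.2, 0)) else 0)

/-- (B7) termwise differentiation of `Φ_B`, (D.7). -/
def B7 : Prop := ∀ y : ℝ, 0 < y → Summable (famA (q2 (y:ℂ))) ∧ Summable (famB (q2 (y:ℂ))) ∧
  Summable (famA (t2 (y:ℂ))) ∧ Summable (famB (t2 (y:ℂ))) ∧
  HasDerivAt PhiB ((y:ℂ)⁻¹ * (1 / 4 * ∑' p : Tri, famA (t2 (y:ℂ)) p +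
    (∑' p : Tri, famB (t2 (y:ℂ)) p + CorS (y:ℂ)))) (y:ℂ)

/-- (B8) termwise differentiation of `Π_{1r}`. -/
def B8 : Prop := ∀ y : ℝ, 0 < y → ∀ r : ℤ, (r = 1 ∨ r = 3) →
  Summable (fun p : (ℤ × ℤ) × (ℤ × ℤ) => if InCl 1 p.1 ∧ InCl r p.2 then
    PowerSeries.coeff 1 (Pp (y:ℂ) (p.1, 1) (p.2, -1)) else 0) ∧
  Summable (fun p : (ℤ × ℤ) × (ℤ × ℤ) => if InCl 1 p.1 ∧ InCl r p.2 then
    PowerSeries.coeff 1 (dP (y:ℂ) (p.1, 1) (p.2, -1)) else 0) ∧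
  HasDerivAt (fun w => PiS w r) ((y:ℂ)⁻¹ * ∑' p : (ℤ × ℤ) × (ℤ × ℤ),
    if InCl 1 p.1 ∧ InCl r p.2 then PowerSeries.coeff 1 (dP (y:ℂ) (p.1, 1) (p.2, -1)) else 0) (y:ℂ)

/-! ## n-sums at fixed m (definitions) -/

/-- `Σ_n [x^i] h` over the class `r` at fixed `m` -/
noncomputable def hS (y : ℝ) (r m al : ℤ) (i : ℕ) : ℂ :=
  ∑' n : ℤ, if InCl r (n, m) then PowerSeries.coeff i (hh (y:ℂ) ((n, m), al)) else 0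

/-- `Σ_n [x^i] d` -/
noncomputable def dS (y : ℝ) (r m al : ℤ) (i : ℕ) : ℂ :=
  ∑' n : ℤ, if InCl r (n, m) then PowerSeries.coeff i (dd (y:ℂ) ((n, m), al)) else 0

/-- `Σ_n [x^i] χ` -/
noncomputable def xS (y : ℝ) (r m al : ℤ) (i : ℕ) : ℂ :=
  ∑' n : ℤ, if InCl r (n, m) then PowerSeries.coeff i (xx (y:ℂ) ((n, m), al)) else 0

/-- `Σ_{n1,n2} [x^i] P` -/
noncomputable def pS (y : ℝ) (r1 r2 m1 m2 al1 al2 : ℤ) (i : ℕ) : ℂ :=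
  ∑' q : ℤ × ℤ, if InCl r1 (q.1, m1) ∧ InCl r2 (q.2, m2) then
    PowerSeries.coeff i (Pp (y:ℂ) ((q.1, m1), al1) ((q.2, m2), al2)) else 0

/-- `Σ_{n1,n2} [x^i] F` -/
noncomputable def fS (y : ℝ) (r1 r2 m1 m2 al1 al2 : ℤ) (i : ℕ) : ℂ :=
  ∑' q : ℤ × ℤ, if InCl r1 (q.1, m1) ∧ InCl r2 (q.2, m2) then
    PowerSeries.coeff i (Ff (y:ℂ) ((q.1, m1), al1) ((q.2, m2), al2)) else 0

end EC237
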