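import Pool.Agent.Helper23.EC.DGoalsN

/-!
# MP_ecc237_nt, Part D, block M: sums over `m`, the correction term (paper `ecc237_partD.md`, D.10-D.15).
-/

set_option autoImplicit false

open MeasureTheory Filter Topology Set

namespace EC237

/-- (N13) the sums of `[x¹]P` needed. -/
def N13 : Prop := ∀ y : ℝ, 0 < y →
  HasSum (fun m : ℤ × ℤ => pS y 1 1 m.1 m.2 1 (-1) 1) (PiS (y:ℂ) 1) ∧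
  HasSum (fun m : ℤ × ℤ => pS y 1 3 m.1 m.2 1 (-1) 1) (PiS (y:ℂ) 3) ∧
  HasSum (fun m : ℤ × ℤ => pS y 1 1 m.1 m.2 (-1) 1 1) (-PiS (y:ℂ) 1) ∧
  HasSum (fun m : ℤ × ℤ => pS y 3 1 m.1 m.2 (-1) 1 1) (-PiS (y:ℂ) 3) ∧
  HasSum (fun m : ℤ × ℤ => pS y 5 5 m.1 m.2 (-1) 0 1) (1 / 2 * PiS (y:ℂ) 1) ∧
  HasSum (fun m : ℤ × ℤ => pS y 1 1 m.1 m.2 0 1 1) (-(1 / 2 * PiS (y:ℂ) 1))

/-- (MPA) the `P`-part of family A. -/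
def MPA : Prop := ∀ y : ℝ, 0 < y →
  HasSum (fun m : ℤ × ℤ × ℤ => PM y (lA1 m) (lA2 m) (lA3 m) (lA4 m))
    (-(((y * D1 y : ℝ) : ℂ) * (PiS (y:ℂ) 1 + 2 * PiS (y:ℂ) 3))) ∧
  HasSum (fun m : ℤ × ℤ × ℤ => PM y (lA2 m) (lA3 m) (lA4 m) (lA1 m))
    (-(((y * D1 y : ℝ) : ℂ) * (PiS (y:ℂ) 1 + 2 * PiS (y:ℂ) 3)))

/-- (MPB) the `P`-part of family B. -/
def MPB : Prop := ∀ y : ℝ, 0 < y →
  HasSum (fun m : ℤ × ℤ × ℤ => PM y (lB1 m) (lB2 m) (lB3 m) (lB4 m)) 0 ∧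
  HasSum (fun m : ℤ × ℤ × ℤ => PM y (lB2 m) (lB3 m) (lB4 m) (lB1 m))
    (((y * D1 y : ℝ) : ℂ) * PiS (y:ℂ) 1)

/-- (M1) weighted summability of the n-sums of `F`. -/
def M1 : Prop := ∀ y : ℝ, 0 < y → ∀ (r1 r2 a1 a2 : ℤ), |a1| ≤ 1 → |a2| ≤ 1 → |a1 + a2| ≤ 1 →
  ∀ k : ℕ, (k = 0 ∨ k = 2) →
  Summable (fun m : ℤ × ℤ => ‖fS y r1 r2 m.1 m.2 a1 a2 k‖ * (1 + |((m.1:ℝ) + m.2)|) ^ (1 / 2 : ℝ))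

/-- (M2') the sum of differences `v(m) - v(-s-m)`. -/
def M2' : Prop := ∀ y : ℝ, 0 < y → ∀ (c3 c4 a3 a4 : ℤ), |a3| ≤ 1 → |a4| ≤ 1 → ∃ C : ℝ, 0 < C ∧
  ∀ s : ℤ, (s + c3 + c4) % 3 = 0 →
    Summable (fun m : ℤ => ‖hS y c3 m a3 0 - hS y c4 (-s - m) a4 0‖) ∧
    ∑' m : ℤ, ‖hS y c3 m a3 0 - hS y c4 (-s - m) a4 0‖ ≤ C * (1 + |(s:ℝ)|) ^ (1 / 2 : ℝ)

/-- (M3) summability of the pieces of `VM`. -/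
def M3 : Prop := ∀ y : ℝ, 0 < y → ∀ (c1 c2 c3 c4 a1 a2 a3 a4 : ℤ), |a1| ≤ 1 → |a2| ≤ 1 → |a3| ≤ 1 →
  |a4| ≤ 1 → |a1 + a2| ≤ 1 → (c1 + c2 + c3 + c4) % 3 = 0 →
  Summable (fun m : ℤ × ℤ × ℤ => fL y (c1, m.1, a1) (c2, m.2.1, a2) 0 * hL y (c3, m.2.2, a3) 2) ∧
  Summable (fun m : ℤ × ℤ × ℤ => fL y (c1, m.1, a1) (c2, m.2.1, a2) 2 *
    (hL y (c3, m.2.2, a3) 0 - hL y (c4, -(m.1 + m.2.1 + m.2.2), a4) 0))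

/-- (M4) the same for the other positions. -/
def M4 : Prop := ∀ y : ℝ, 0 < y → ∀ (c1 c2 c3 c4 a1 a2 a3 a4 : ℤ), |a1| ≤ 1 → |a2| ≤ 1 → |a3| ≤ 1 →
  |a4| ≤ 1 → |a1 + a2| ≤ 1 → |a3 + a4| ≤ 1 → (c1 + c2 + c3 + c4) % 3 = 0 →
  Summable (fun m : ℤ × ℤ × ℤ => fL y (c1, m.1, a1) (c2, m.2.1, a2) 0 *
    hL y (c4, -(m.1 + m.2.1 + m.2.2), a4) 2) ∧
  Summable (fun m : ℤ × ℤ × ℤ => fL y (c3, m.2.2, a3) (c4, -(m.1 + m.2.1 + m.2.2), a4) 0 *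
    hL y (c1, m.1, a1) 2) ∧
  Summable (fun m : ℤ × ℤ × ℤ => fL y (c3, m.2.2, a3) (c4, -(m.1 + m.2.1 + m.2.2), a4) 0 *
    hL y (c2, m.2.1, a2) 2) ∧
  Summable (fun m : ℤ × ℤ × ℤ => fL y (c3, m.2.2, a3) (c4, -(m.1 + m.2.1 + m.2.2), a4) 2 *
    (hL y (c1, m.1, a1) 0 - hL y (c2, m.2.1, a2) 0))

/-- (MVA) the `F`-part of family A vanishes. -/
def MVA : Prop := ∀ y : ℝ, 0 < y →
  HasSum (fun m : ℤ × ℤ × ℤ => VM y (lA1 m) (lA2 m) (lA3 m) (lA4 m)) 0 ∧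
  HasSum (fun m : ℤ × ℤ × ℤ => VM y (lA2 m) (lA3 m) (lA4 m) (lA1 m)) 0

/-- (MVB) the `F`-part of family B vanishes, unrotated term. -/
def MVB : Prop := ∀ y : ℝ, 0 < y →
  HasSum (fun m : ℤ × ℤ × ℤ => VM y (lB1 m) (lB2 m) (lB3 m) (lB4 m)) 0

/-- (MVC) the `F`-part of family B vanishes, rotated term. -/
def MVC : Prop := ∀ y : ℝ, 0 < y →
  HasSum (fun m : ℤ × ℤ × ℤ => VM y (lB2 m) (lB3 m) (lB4 m) (lB1 m)) 0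

/-- termwise derivative of `M0` -/
noncomputable def M0d (y : ℝ) : ℝ :=
  ∑' k : ℤ × ℤ, if InCl 1 k then
    2 * (k.2:ℝ) * y / Nn y k ^ 2 - 4 * (k.2:ℝ) ^ 3 * y ^ 3 / Nn y k ^ 3 else 0

/-- termwise derivative of `M2` -/
noncomputable def M2d (y : ℝ) : ℝ :=
  ∑' k : ℤ × ℤ, if InCl 1 k then
    (k.2:ℝ) * (20 * (k.1:ℝ) ^ 2 * y - 8 * (k.2:ℝ) ^ 2 * y ^ 3) / Nn y k ^ 4
      - 8 * (k.2:ℝ) ^ 3 * y ^ 3 * (10 * (k.1:ℝ) ^ 2 - 2 * (k.2:ℝ) ^ 2 * y ^ 2) / Nn y k ^ 5 else 0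

/-- (R1) differentiability of `M0`, `M2`. -/
def R1 : Prop := ∀ y : ℝ, 0 < y → HasDerivAt M0 (M0d y) y ∧ HasDerivAt M2 (M2d y) y ∧
  Summable (fun k : ℤ × ℤ => if InCl 1 k then (k.2:ℝ) * y ^ 2 / Nn y k ^ 2 else 0) ∧
  Summable (fun k : ℤ × ℤ => if InCl 1 k then
    2 * (k.2:ℝ) * y / Nn y k ^ 2 - 4 * (k.2:ℝ) ^ 3 * y ^ 3 / Nn y k ^ 3 else 0) ∧
  Summable (fun k : ℤ × ℤ => if InCl 1 k then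
    (k.2:ℝ) * y ^ 2 * (10 * (k.1:ℝ) ^ 2 - 2 * (k.2:ℝ) ^ 2 * y ^ 2) / Nn y k ^ 4 else 0) ∧
  Summable (fun k : ℤ × ℤ => if InCl 1 k then
    (k.2:ℝ) * (20 * (k.1:ℝ) ^ 2 * y - 8 * (k.2:ℝ) ^ 2 * y ^ 3) / Nn y k ^ 4
      - 8 * (k.2:ℝ) ^ 3 * y ^ 3 * (10 * (k.1:ℝ) ^ 2 - 2 * (k.2:ℝ) ^ 2 * y ^ 2) / Nn y k ^ 5 else 0)

/-- `p = AB(A-B)` -/
noncomputable def pp1 (w : ℂ) (v : SV) : PowerSeries ℂ := As w v * Bs w v * (As w v - Bs w v)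

/-- `q = A³ - B³` -/
noncomputable def qq1 (w : ℂ) (v : SV) : PowerSeries ℂ := As w v ^ 3 - Bs w v ^ 3

/-- (R2) the four one-variable sums. -/
def R2 : Prop := ∀ y : ℝ, 0 < y →
  HasSum (fun k : ℤ × ℤ => if InCl 1 k then PowerSeries.coeff 2 (pp1 (y:ℂ) (k, 1)) else 0)
    (-(2 * Complex.I * ((M2 y / y : ℝ) : ℂ))) ∧
  HasSum (fun k : ℤ × ℤ => if InCl 1 k then PowerSeries.coeff 2 (qq1 (y:ℂ) (k, 1)) else 0)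
    (-(2 * Complex.I * ((M2 y / y + M2d y : ℝ) : ℂ))) ∧
  HasSum (fun k : ℤ × ℤ => if InCl 5 k then PowerSeries.coeff 0 (pp1 (y:ℂ) (k, 0)) else 0)
    (2 * Complex.I * ((M0 y / y : ℝ) : ℂ)) ∧
  HasSum (fun k : ℤ × ℤ => if InCl 5 k then PowerSeries.coeff 0 (qq1 (y:ℂ) (k, 0)) else 0)
    (2 * Complex.I * ((M0 y / y + M0d y : ℝ) : ℂ))

/-- (R3) the correction sum, (D.14). -/
def R3 : Prop := ∀ y : ℝ, 0 < y → CorS (y:ℂ) =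
  ((16 / 3 * y * (M0 y * M2 y) + 4 / 3 * y ^ 2 * (M0d y * M2 y + M0 y * M2d y) : ℝ) : ℂ)

end EC237
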