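import Pool.Agent.Helper23.EC.DGoalsA

/-!
# MP_ecc237_nt, Part D, block N: sums over `n` for fixed `m` (paper `ecc237_partD.md`, D.3).
-/

set_option autoImplicit false

open MeasureTheory Filter Topology Set

namespace EC237

/-- `ε = (-1)^{m-r}` -/
def epz (r m : ℤ) : ℝ := if (m - r) % 2 = 0 then 1 else -1

/-- `Σ_{ν≥1} ε^ν ν^j e^{-πν|m|y}` -/
noncomputable def qz (y : ℝ) (r m : ℤ) (j : ℕ) : ℝ :=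
  ∑' v : ℕ, epz r m ^ (v + 1) * ((v:ℝ) + 1) ^ j * Real.exp (-(Real.pi * ((v:ℝ) + 1) * |(m:ℝ)| * y))

/-- a leg `(class, m, shift)` -/
abbrev Leg : Type := ℤ × ℤ × ℤ

/-- the shifted vector of a leg with first coordinate `n` -/
def sv (u : Leg) (n : ℤ) : SV := ((n, u.2.1), u.2.2)

noncomputable def hL (y : ℝ) (u : Leg) (i : ℕ) : ℂ := hS y u.1 u.2.1 u.2.2 i
noncomputable def dL (y : ℝ) (u : Leg) (i : ℕ) : ℂ := dS y u.1 u.2.1 u.2.2 i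
noncomputable def xL (y : ℝ) (u : Leg) (i : ℕ) : ℂ := xS y u.1 u.2.1 u.2.2 i
noncomputable def pL (y : ℝ) (u v : Leg) (i : ℕ) : ℂ := pS y u.1 v.1 u.2.1 v.2.1 u.2.2 v.2.2 i
noncomputable def fL (y : ℝ) (u v : Leg) (i : ℕ) : ℂ := fS y u.1 v.1 u.2.1 v.2.1 u.2.2 v.2.2 i

/-- the `P`-part of the n-sum of `[x²]T_s` -/
noncomputable def PM (y : ℝ) (u1 u2 u3 u4 : Leg) : ℂ :=
  -(pL y u1 u2 1 * (xL y u3 1 - xL y u4 1)) - pL y u3 u4 1 * (xL y u1 1 - xL y u2 1)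

/-- the `F`-part of the n-sum of `[x²]T_s` -/
noncomputable def VM (y : ℝ) (u1 u2 u3 u4 : Leg) : ℂ :=
  1 / 3 * (fL y u1 u2 0 * (hL y u3 2 - hL y u4 2) + fL y u1 u2 2 * (hL y u3 0 - hL y u4 0)
    + fL y u3 u4 0 * (hL y u1 2 - hL y u2 2) + fL y u3 u4 2 * (hL y u1 0 - hL y u2 0))

/-- family A legs, `m = (m1,m2,m3)` -/
def lA1 (m : ℤ × ℤ × ℤ) : Leg := (1, m.1, 1)
def lA2 (m : ℤ × ℤ × ℤ) : Leg := (1, m.2.1, -1)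
def lA3 (m : ℤ × ℤ × ℤ) : Leg := (1, m.2.2, 1)
def lA4 (m : ℤ × ℤ × ℤ) : Leg := (3, -(m.1 + m.2.1 + m.2.2), -1)

/-- family B legs, `m = (m1,m2,m3)` -/
def lB1 (m : ℤ × ℤ × ℤ) : Leg := (1, m.1, 1)
def lB2 (m : ℤ × ℤ × ℤ) : Leg := (5, m.2.1, -1)
def lB3 (m : ℤ × ℤ × ℤ) : Leg := (5, m.2.2, 0)
def lB4 (m : ℤ × ℤ × ℤ) : Leg := (1, -(m.1 + m.2.1 + m.2.2), 0)

/-- (N1) summability over `n` of the coefficients of `h, d, χ`. -/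
def N1 : Prop := ∀ y : ℝ, 0 < y → ∀ (r m al : ℤ) (i : ℕ),
  Summable (fun n : ℤ => if InCl r (n, m) then PowerSeries.coeff i (hh (y:ℂ) ((n, m), al)) else 0) ∧
  Summable (fun n : ℤ => if InCl r (n, m) then PowerSeries.coeff i (dd (y:ℂ) ((n, m), al)) else 0) ∧
  Summable (fun n : ℤ => if InCl r (n, m) then PowerSeries.coeff i (xx (y:ℂ) ((n, m), al)) else 0)

/-- (N2) summability over `(n1,n2)` of the coefficients of `P`. -/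
def N2 : Prop := ∀ y : ℝ, 0 < y → ∀ (r1 r2 m1 m2 al1 al2 : ℤ) (i : ℕ),
  Summable (fun q : ℤ × ℤ => if InCl r1 (q.1, m1) ∧ InCl r2 (q.2, m2) then
    PowerSeries.coeff i (Pp (y:ℂ) ((q.1, m1), al1) ((q.2, m2), al2)) else 0)

/-- (N3) summability and value of the sum over `(n1,n2)` of the coefficients of `F`. -/
def N3 : Prop := ∀ y : ℝ, 0 < y → ∀ (r1 r2 m1 m2 al1 al2 : ℤ),
  (∀ i : ℕ, Summable (fun q : ℤ × ℤ => if InCl r1 (q.1, m1) ∧ InCl r2 (q.2, m2) then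
    PowerSeries.coeff i (Ff (y:ℂ) ((q.1, m1), al1) ((q.2, m2), al2)) else 0)) ∧
  fS y r1 r2 m1 m2 al1 al2 0 =
    hS y r1 m1 al1 0 * dS y r2 m2 al2 0 - dS y r1 m1 al1 0 * hS y r2 m2 al2 0
    + (hS y r2 m2 al2 0 * dS y (r1 + r2) (m1 + m2) (al1 + al2) 0
      - dS y r2 m2 al2 0 * hS y (r1 + r2) (m1 + m2) (al1 + al2) 0)
    + (hS y (r1 + r2) (m1 + m2) (al1 + al2) 0 * dS y r1 m1 al1 0
      - dS y (r1 + r2) (m1 + m2) (al1 + al2) 0 * hS y r1 m1 al1 0) ∧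
  fS y r1 r2 m1 m2 al1 al2 2 =
    hS y r1 m1 al1 0 * dS y r2 m2 al2 2 - dS y r1 m1 al1 0 * hS y r2 m2 al2 2
    + (hS y r1 m1 al1 2 * dS y r2 m2 al2 0 - dS y r1 m1 al1 2 * hS y r2 m2 al2 0)
    + (hS y r2 m2 al2 0 * dS y (r1 + r2) (m1 + m2) (al1 + al2) 2
      - dS y r2 m2 al2 0 * hS y (r1 + r2) (m1 + m2) (al1 + al2) 2)
    + (hS y r2 m2 al2 2 * dS y (r1 + r2) (m1 + m2) (al1 + al2) 0
      - dS y r2 m2 al2 2 * hS y (r1 + r2) (m1 + m2) (al1 + al2) 0)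
    + (hS y (r1 + r2) (m1 + m2) (al1 + al2) 0 * dS y r1 m1 al1 2
      - dS y (r1 + r2) (m1 + m2) (al1 + al2) 0 * hS y r1 m1 al1 2)
    + (hS y (r1 + r2) (m1 + m2) (al1 + al2) 2 * dS y r1 m1 al1 0
      - dS y (r1 + r2) (m1 + m2) (al1 + al2) 2 * hS y r1 m1 al1 0)

/-- (N4) symmetries of the n-sums of `h, d, χ`. -/
def N4 : Prop := ∀ y : ℝ, 0 < y → ∀ (r m al : ℤ),
  (∀ i : ℕ, hS y (-r) (-m) al i = hS y r m (-al) i ∧ dS y (-r) (-m) al i = dS y r m (-al) i ∧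
    xS y (-r) (-m) al i = xS y r m (-al) i) ∧
  (∀ i : ℕ, hS y (r + 6) m al i = hS y r m al i ∧ dS y (r + 6) m al i = dS y r m al i ∧
    xS y (r + 6) m al i = xS y r m al i) ∧
  hS y r m al 0 = hS y r m 0 0 ∧ dS y r m al 0 = dS y r m 0 0 ∧
  hS y r m al 2 = (al:ℂ) ^ 2 * hS y r m 1 2 ∧ dS y r m al 2 = (al:ℂ) ^ 2 * dS y r m 1 2 ∧
  xS y r m al 1 = (al:ℂ) * xS y r m 1 1 ∧
  (∀ i : ℕ, i % 2 = 1 → hS y r m al i = 0 ∧ dS y r m al i = 0) ∧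
  (∀ i : ℕ, i % 2 = 0 → xS y r m al i = 0) ∧
  xS y r (-m) al 1 = -xS y (-r) m al 1 ∧ hS y r (-m) al 0 = hS y (-r) m al 0 ∧
  ((m - r) % 3 ≠ 0 → ∀ i : ℕ, hS y r m al i = 0 ∧ dS y r m al i = 0 ∧ xS y r m al i = 0)

/-- (N5) symmetries of the n-sums of `P` and `F`. -/
def N5 : Prop := ∀ y : ℝ, 0 < y → ∀ (r1 r2 m1 m2 al1 al2 : ℤ),
  (∀ i : ℕ, pS y r2 r1 m2 m1 al2 al1 i = -pS y r1 r2 m1 m2 al1 al2 i ∧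
    fS y r2 r1 m2 m1 al2 al1 i = -fS y r1 r2 m1 m2 al1 al2 i) ∧
  (∀ i : ℕ, pS y (-r1) (-r2) (-m1) (-m2) al1 al2 i = pS y r1 r2 m1 m2 (-al1) (-al2) i) ∧
  pS y r1 r2 m1 m2 al1 al2 1 = (al1:ℂ) * pS y r1 r2 m1 m2 1 0 1 + (al2:ℂ) * pS y r1 r2 m1 m2 0 1 1 ∧
  (∀ i : ℕ, i % 2 = 0 → pS y r1 r2 m1 m2 al1 al2 i = 0) ∧
  (∀ i : ℕ, i % 2 = 1 → fS y r1 r2 m1 m2 al1 al2 i = 0) ∧
  fS y r1 r2 m1 m2 al1 al2 0 = fS y r1 r2 m1 m2 0 0 0 ∧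
  ((m1 - r1) % 3 ≠ 0 ∨ (m2 - r2) % 3 ≠ 0 → ∀ i : ℕ,
    pS y r1 r2 m1 m2 al1 al2 i = 0 ∧ fS y r1 r2 m1 m2 al1 al2 i = 0)

/-- (N6) closed forms of the n-sums of `h, d, χ`. -/
def N6 : Prop := ∀ y : ℝ, 0 < y → ∀ (r m al : ℤ), (m - r) % 3 = 0 →
  (m ≠ 0 →
    hS y r m al 0 = ((Real.pi / (2 * |(m:ℝ)|) * (1 + 2 * qz y r m 0) : ℝ) : ℂ) ∧
    hS y r m al 2 = ((-((al:ℝ) ^ 2 * (Real.pi ^ 3 / (2 * |(m:ℝ)|)) * qz y r m 2) : ℝ) : ℂ) ∧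
    dS y r m al 0 = ((-(Real.pi ^ 2 * y * qz y r m 1) : ℝ) : ℂ) ∧
    dS y r m al 2 = (((al:ℝ) ^ 2 * (Real.pi ^ 4 * y / 2) * qz y r m 3 : ℝ) : ℂ) ∧
    xS y r m al 1 = (((al:ℝ) * (m.sign : ℝ) * y * Real.pi ^ 3 * qz y r m 2 : ℝ) : ℂ)) ∧
  (m = 0 →
    hS y r m al 0 = (((if r % 2 = 0 then Real.pi ^ 2 * y / 12 else Real.pi ^ 2 * y / 4) : ℝ) : ℂ) ∧
    dS y r m al 0 = (((if r % 2 = 0 then Real.pi ^ 2 * y / 12 else Real.pi ^ 2 * y / 4) : ℝ) : ℂ) ∧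
    xS y r m al 1 = 0)

/-- (N7) bounds of the n-sums of `h, d, χ`. -/
def N7 : Prop := ∀ y : ℝ, 0 < y → ∃ C c : ℝ, 0 < C ∧ 0 < c ∧ ∀ (r m al : ℤ), |al| ≤ 1 →
  ‖hS y r m al 0‖ ≤ C / (1 + |(m:ℝ)|) ∧
  ((m - r) % 3 = 0 → m ≠ 0 →
    ‖hS y r m al 0 - ((Real.pi / (2 * |(m:ℝ)|) : ℝ) : ℂ)‖ ≤ C * Real.exp (-(c * |(m:ℝ)|))) ∧
  ‖hS y r m al 2‖ ≤ C * Real.exp (-(c * |(m:ℝ)|)) ∧ ‖dS y r m al 0‖ ≤ C * Real.exp (-(c * |(m:ℝ)|)) ∧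
  ‖dS y r m al 2‖ ≤ C * Real.exp (-(c * |(m:ℝ)|)) ∧ ‖xS y r m al 1‖ ≤ C * Real.exp (-(c * |(m:ℝ)|))

/-- (N8) comparison of `v(m)` and `v(m')`. -/
def N8 : Prop := ∀ y : ℝ, 0 < y → ∃ C : ℝ, 0 < C ∧ ∀ (r m al r' m' al' : ℤ), |al| ≤ 1 → |al'| ≤ 1 →
  (m - r) % 3 = 0 → (m' - r') % 3 = 0 →
  ‖hS y r m al 0 - hS y r' m' al' 0‖ ≤
    C * (1 + |(|(m:ℝ)| - |(m':ℝ)|)|) / ((1 + |(m:ℝ)|) * (1 + |(m':ℝ)|))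

/-- (N9) the n-sum of `[x²]T_s`. -/
def N9 : Prop := ∀ y : ℝ, 0 < y → ∀ u1 u2 u3 u4 : Leg, (u1.1 + u2.1 + u3.1 + u4.1) % 6 = 0 →
  u1.2.1 + u2.2.1 + u3.2.1 + u4.2.1 = 0 → u1.2.2 + u2.2.2 + u3.2.2 + u4.2.2 = 0 →
  HasSum (fun n : ℤ × ℤ × ℤ =>
    if InCl u1.1 (n.1, u1.2.1) ∧ InCl u2.1 (n.2.1, u2.2.1) ∧ InCl u3.1 (n.2.2, u3.2.1) then
      PowerSeries.coeff 2 (Ts (y:ℂ) (sv u1 n.1) (sv u2 n.2.1) (sv u3 n.2.2)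
        (sv u4 (-(n.1 + n.2.1 + n.2.2)))) else 0) (PM y u1 u2 u3 u4 + VM y u1 u2 u3 u4)

/-- (N10) Fubini for the two families. -/
def N10 : Prop := ∀ y : ℝ, 0 < y →
  HasSum (fun m : ℤ × ℤ × ℤ => PM y (lA1 m) (lA2 m) (lA3 m) (lA4 m) + VM y (lA1 m) (lA2 m) (lA3 m) (lA4 m)
    + (PM y (lA2 m) (lA3 m) (lA4 m) (lA1 m) + VM y (lA2 m) (lA3 m) (lA4 m) (lA1 m)))
    (∑' p : Tri, famA (t2 (y:ℂ)) p) ∧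
  HasSum (fun m : ℤ × ℤ × ℤ => PM y (lB1 m) (lB2 m) (lB3 m) (lB4 m) + VM y (lB1 m) (lB2 m) (lB3 m) (lB4 m)
    + (PM y (lB2 m) (lB3 m) (lB4 m) (lB1 m) + VM y (lB2 m) (lB3 m) (lB4 m) (lB1 m)))
    (∑' p : Tri, famB (t2 (y:ℂ)) p)

/-- (N11) Fubini for the sums of `[x¹]P` over two classes. -/
def N11 : Prop := ∀ y : ℝ, 0 < y → ∀ (r1 r2 al1 al2 : ℤ), |al1| ≤ 1 → |al2| ≤ 1 →
  Summable (fun p : (ℤ × ℤ) × (ℤ × ℤ) => if InCl r1 p.1 ∧ InCl r2 p.2 then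
    PowerSeries.coeff 1 (Pp (y:ℂ) (p.1, al1) (p.2, al2)) else 0) ∧
  HasSum (fun m : ℤ × ℤ => pS y r1 r2 m.1 m.2 al1 al2 1)
    (∑' p : (ℤ × ℤ) × (ℤ × ℤ), if InCl r1 p.1 ∧ InCl r2 p.2 then
      PowerSeries.coeff 1 (Pp (y:ℂ) (p.1, al1) (p.2, al2)) else 0)

/-- (N12) the sums over `m` of `[x¹]χ`. -/
def N12 : Prop := ∀ y : ℝ, 0 < y → (∀ r al : ℤ, |al| ≤ 1 → Summable (fun m : ℤ => xS y r m al 1)) ∧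
  ∑' m : ℤ, xS y 1 m 1 1 = ((y * D1 y : ℝ) : ℂ) ∧ ∑' m : ℤ, xS y 5 m (-1) 1 = ((y * D1 y : ℝ) : ℂ) ∧
  ∑' m : ℤ, xS y 1 m (-1) 1 = -((y * D1 y : ℝ) : ℂ) ∧ (∀ al : ℤ, ∑' m : ℤ, xS y 3 m al 1 = 0)

end EC237
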