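import Pool.Agent.Helper23.EC.EIface
import Pool.Agent.Helper23.EC.DGoalsA

/-!
# MP_ecc237_nt, Part E, sections E.1, E.2 (reduced form, main terms and errors); target `EC237.E5`.
-/

set_option autoImplicit false

open MeasureTheory Filter Topology Set

namespace EC237

/-- `Σ_{κ∈Λc, s-κ∈Λc'} [x^j] X(κ-ax, (s-κ)-a'x)` -/
noncomputable def Xs (y : ℝ) (c c' a a' : ℤ) (j : ℕ) (s : ℤ × ℤ) : ℂ :=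
  ∑' k : ℤ × ℤ, if InCl c k ∧ InCl c' (s - k) then
    PowerSeries.coeff j (XX (y:ℂ) (k, a) (s - k, a')) else 0

noncomputable def Yc (y : ℝ) (s : ℤ × ℤ) : ℂ := Xs y 1 1 1 0 1 s
noncomputable def Wc (y : ℝ) (s : ℤ × ℤ) : ℂ := Xs y 1 3 1 (-1) 1 (-s)
noncomputable def Ec (y : ℝ) (j : ℕ) (s : ℤ × ℤ) : ℂ := Xs y 1 5 1 (-1) j s

/-! ## Block EA: reduced form -/

/-- (EA1) summability of `Xs`. -/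
def EA1 : Prop := ∀ y : ℝ, 0 < y → ∀ (c c' a a' : ℤ) (j : ℕ) (s : ℤ × ℤ), |a| ≤ 1 → |a'| ≤ 1 →
  j ≤ 2 → s ≠ 0 → Summable (fun k : ℤ × ℤ => if InCl c k ∧ InCl c' (s - k) then
    PowerSeries.coeff j (XX (y:ℂ) (k, a) (s - k, a')) else 0)

/-- one channel, summand over `s` -/
noncomputable def Ch (y : ℝ) (c1 c2 c3 c4 a1 a2 a3 a4 : ℤ) (s : ℤ × ℤ) : ℂ :=
  if InCl (c1 + c2) s then
    ∑ i ∈ Finset.range 3, ∑ j ∈ Finset.range 3, ∑ l ∈ Finset.range 3,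
      (if i + j + l = 2 then Xs y c1 c2 a1 a2 i s * Xs y c3 c4 a3 a4 j (-s) *
        PowerSeries.coeff l (As (y:ℂ) (s, a1 + a2) * Bs (y:ℂ) (s, a1 + a2)) else 0)
  else 0

/-- (EA0) one channel, Fubini. -/
def EA0 : Prop := ∀ y : ℝ, 0 < y → ∀ (c1 c2 c3 c4 a1 a2 a3 a4 : ℤ), (c1 + c2 + c3 + c4) % 6 = 0 →
  a1 + a2 + a3 + a4 = 0 → |a1| ≤ 1 → |a2| ≤ 1 → |a3| ≤ 1 → |a4| ≤ 1 →
  Summable (Ch y c1 c2 c3 c4 a1 a2 a3 a4) ∧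
  HasSum (fun p : Tri => if ClT c1 c2 c3 p then PowerSeries.coeff 2
    (Qs (y:ℂ) (p.1, a1) (p.2.1, a2) (p.2.2, a3) (k4 p, a4)) else 0)
    (-(2 / 3 * (y:ℂ) ^ 3) * ∑' s : ℤ × ℤ, Ch y c1 c2 c3 c4 a1 a2 a3 a4 s)

/-- (EA4) symmetries of `Xs`. -/
def EA4 : Prop := ∀ y : ℝ, 0 < y → ∀ (c c' a a' : ℤ) (s : ℤ × ℤ),
  (∀ j : ℕ, Xs y c' c a' a j s = -Xs y c c' a a' j s ∧
    Xs y (-c) (-c') a a' j (-s) = Xs y c c' (-a) (-a') j s ∧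
    Xs y c c' (-a) (-a') j s = (-1) ^ j * Xs y c c' a a' j s ∧
    Xs y (c + 6) (c' + 6) a a' j s = Xs y c c' a a' j s ∧
    Xs y (c + 6) c' a a' j s = Xs y c c' a a' j s) ∧
  Xs y c c' a a' 0 s = Xs y c c' 0 0 0 s ∧ Xs y c c' 0 0 1 s = 0 ∧ Xs y c c' 0 0 2 s = 0 ∧
  (s ≠ 0 → |a| ≤ 1 → |a'| ≤ 1 →
    Xs y c c' a a' 1 s = (a:ℂ) * Xs y c c' 1 0 1 s + (a':ℂ) * Xs y c c' 0 1 1 s)

/-- (EA2) family A. -/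
def EA2 : Prop := ∀ y : ℝ, 0 < y →
  Summable (fun s : ℤ × ℤ => if InCl 2 s then ((Nn y s)⁻¹ : ℝ) * (Yc y s * Wc y s) else 0) ∧
  ∑' p : Tri, famA (q2 (y:ℂ)) p = -(2 / 3 * (y:ℂ) ^ 3) * (4 * ∑' s : ℤ × ℤ,
    if InCl 2 s then ((Nn y s)⁻¹ : ℝ) * (Yc y s * Wc y s) else 0)

/-- (EA3) family B. -/
def EA3 : Prop := ∀ y : ℝ, 0 < y →
  Summable (fun s : ℤ × ℤ => if InCl 2 s then ((Nn y s)⁻¹ : ℝ) * Yc y s ^ 2 else 0) ∧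
  Summable (fun s : ℤ × ℤ => if InCl 0 s ∧ s ≠ 0 then
    ((Nn y s)⁻¹ : ℝ) * (Ec y 0 s * Ec y 2 s) else 0) ∧
  ∑' p : Tri, famB (q2 (y:ℂ)) p = -(2 / 3 * (y:ℂ) ^ 3) *
    (∑' s : ℤ × ℤ, (if InCl 0 s ∧ s ≠ 0 then ((Nn y s)⁻¹ : ℝ) * (Ec y 0 s * Ec y 2 s) else 0)
      - ∑' s : ℤ × ℤ, if InCl 2 s then ((Nn y s)⁻¹ : ℝ) * Yc y s ^ 2 else 0)

/-- (EAF) the reduced form (E.1). -/
def EAF : Prop := ∀ y : ℝ, 0 < y →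
  Summable (fun s : ℤ × ℤ => if InCl 2 s then
    ((Nn y s)⁻¹ : ℝ) * (Yc y s * (Wc y s - Yc y s)) else 0) ∧
  Summable (fun s : ℤ × ℤ => if InCl 0 s ∧ s ≠ 0 then
    ((Nn y s)⁻¹ : ℝ) * (Ec y 0 s * Ec y 2 s) else 0) ∧
  PhiB (y:ℂ) = -(2 / 3 * (y:ℂ) ^ 3) *
    (∑' s : ℤ × ℤ, (if InCl 2 s then ((Nn y s)⁻¹ : ℝ) * (Yc y s * (Wc y s - Yc y s)) else 0)
      + ∑' s : ℤ × ℤ, if InCl 0 s ∧ s ≠ 0 then ((Nn y s)⁻¹ : ℝ) * (Ec y 0 s * Ec y 2 s) else 0)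

theorem eaf_of (h2 : EA2) (h3 : EA3) : EAF := by
  intro y hy
  obtain ⟨a1, a2⟩ := h2 y hy
  obtain ⟨b1, b2, b3⟩ := h3 y hy
  have e : ∀ s : ℤ × ℤ, (if InCl 2 s then
      ((Nn y s)⁻¹ : ℝ) * (Yc y s * (Wc y s - Yc y s)) else (0:ℂ)) =
      (if InCl 2 s then ((Nn y s)⁻¹ : ℝ) * (Yc y s * Wc y s) else 0)
      - (if InCl 2 s then ((Nn y s)⁻¹ : ℝ) * Yc y s ^ 2 else 0) := by
    intro s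
    split_ifs
    · ring
    · ring
  refine ⟨?_, b2, ?_⟩
  · simp_rw [e]
    exact a1.sub b1
  · simp_rw [e]
    rw [a1.tsum_sub b1]
    unfold PhiB
    rw [a2, b3]
    ring

/-! ## Block EB: one-variable sums -/

/-- `u = 1/(m - i n z)` -/
noncomputable def uz (z : ℝ) (n m : ℤ) : ℂ := ((m:ℂ) - Complex.I * n * z)⁻¹

/-- `v = 1/(m + i n z)` -/
noncomputable def vz (z : ℝ) (n m : ℤ) : ℂ := ((m:ℂ) + Complex.I * n * z)⁻¹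

/-- `Σ_{m ≡ c (6)} u^j` -/
noncomputable def eU (z : ℝ) (c n : ℤ) (j : ℕ) : ℂ :=
  ∑' m : ℤ, if (m - c) % 6 = 0 then uz z n m ^ j else 0

/-- `Σ_{m ≡ c (6)} v^j` -/
noncomputable def eW (z : ℝ) (c n : ℤ) (j : ℕ) : ℂ :=
  ∑' m : ℤ, if (m - c) % 6 = 0 then vz z n m ^ j else 0

/-- `Σ_{m1 ≡ c (6)} (u(n1,m1) + v(n2,m-m1))` -/
noncomputable def eSg (z : ℝ) (c n1 n2 m : ℤ) : ℂ :=
  ∑' m1 : ℤ, if (m1 - c) % 6 = 0 then uz z n1 m1 + vz z n2 (m - m1) else 0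

/-- main value of the `u`-part of `eSg` -/
noncomputable def sU (c n : ℤ) : ℂ :=
  if n ≠ 0 then Complex.I * (Real.pi / 6 : ℝ) * ((n.sign : ℤ) : ℂ)
  else ((Real.pi / 6 * (Real.cos (Real.pi * c / 6) / Real.sin (Real.pi * c / 6)) : ℝ) : ℂ)

/-- main value of the `v`-part of `eSg` -/
noncomputable def sV (c n : ℤ) : ℂ :=
  if n ≠ 0 then -(Complex.I * (Real.pi / 6 : ℝ) * ((n.sign : ℤ) : ℂ))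
  else ((Real.pi / 6 * (Real.cos (Real.pi * c / 6) / Real.sin (Real.pi * c / 6)) : ℝ) : ℂ)

/-- the error weight `1_{n≠0} e^{-π|n|z/3}` -/
noncomputable def ewt (z : ℝ) (n : ℤ) : ℝ :=
  if n = 0 then 0 else Real.exp (-(Real.pi / 3 * |(n:ℝ)| * z))

/-- (EB1) summability. -/
def EB1 : Prop := ∀ z : ℝ, 0 < z → ∀ c n n2 m : ℤ,
  (∀ j : ℕ, 2 ≤ j → Summable (fun m : ℤ => if (m - c) % 6 = 0 then uz z n m ^ j else 0) ∧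
    Summable (fun m : ℤ => if (m - c) % 6 = 0 then vz z n m ^ j else 0)) ∧
  Summable (fun m1 : ℤ => if (m1 - c) % 6 = 0 then uz z n m1 + vz z n2 (m - m1) else 0)

/-- (EB2) exponentially small sums. -/
def EB2 : Prop := ∃ C : ℝ, 0 < C ∧ ∀ z : ℝ, 1 ≤ z → ∀ c n : ℤ, n ≠ 0 → ∀ j : ℕ, 2 ≤ j → j ≤ 4 →
  ‖eU z c n j‖ ≤ C * ewt z n ∧ ‖eW z c n j‖ ≤ C * ewt z n

/-- (EB3) `eSg`. -/
def EB3 : Prop := ∃ C : ℝ, 0 < C ∧ ∀ z : ℝ, 1 ≤ z → ∀ c n1 n2 m : ℤ,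
  (n1 ≠ 0 ∨ c % 6 ≠ 0) → (n2 ≠ 0 ∨ (m - c) % 6 ≠ 0) →
  ‖eSg z c n1 n2 m - (sU c n1 + sV (m - c) n2)‖ ≤ C * (ewt z n1 + ewt z n2)

/-- (EB4) the values at `n = 0`. -/
def EB4 : Prop := ∀ z : ℝ,
  eU z 1 0 2 = ((Real.pi ^ 2 / 9 : ℝ) : ℂ) ∧ eW z 1 0 2 = ((Real.pi ^ 2 / 9 : ℝ) : ℂ) ∧
  eW z 5 0 2 = ((Real.pi ^ 2 / 9 : ℝ) : ℂ) ∧ eW z 3 0 2 = ((Real.pi ^ 2 / 36 : ℝ) : ℂ) ∧
  eU z 1 0 3 = (eZ13 : ℂ) ∧ eW z 5 0 3 = -(eZ13 : ℂ)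

/-! ## Block EC: sums over `m1` of the coefficients of `X` -/

/-- `Σ_{m1} [x^j] X(κ1-ax, κ2-a'x)` at fixed `n1`, `n2 = k-n1`, `m1+m2 = m`, `κ1 ∈ Λc` -/
noncomputable def gX (z : ℝ) (c a a' : ℤ) (j : ℕ) (k m n1 : ℤ) : ℂ :=
  ∑' m1 : ℤ, if InCl c (n1, m1) then
    PowerSeries.coeff j (XX ((z⁻¹:ℝ):ℂ) ((n1, m1), a) ((k - n1, m - m1), a')) else 0

/-- the closed form in terms of `S = Σ(u+v)`, `U_j`, `V_j`, `M` -/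
noncomputable def FX (z : ℝ) (a a' : ℂ) (j : ℕ) (M S U2 U3 V2 V3 : ℂ) : ℂ :=
  if j = 0 then (z:ℂ) ^ 2 * (S / M)
  else if j = 1 then (z:ℂ) ^ 3 * (-(Complex.I * a * (U2 / M + S / M ^ 2))
    + Complex.I * a' * (V2 / M + S / M ^ 2))
  else (z:ℂ) ^ 4 * (-(a ^ 2 * (U3 / M + U2 / M ^ 2 + S / M ^ 3))
    + a * a' * ((U2 + V2) / M ^ 2 + 2 * (S / M ^ 3)) - a' ^ 2 * (V3 / M + V2 / M ^ 2 + S / M ^ 3))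

/-- `M = m + i (k - 2 n1) z` -/
noncomputable def MM (z : ℝ) (k m n1 : ℤ) : ℂ := (m:ℂ) + Complex.I * ((k:ℂ) - 2 * n1) * z

/-- (EC1) closed form of `gX` for `M ≠ 0`, and summability. -/
def EC1 : Prop := ∀ z : ℝ, 0 < z → ∀ (c a a' : ℤ) (j : ℕ) (k m n1 : ℤ), j ≤ 2 →
  Summable (fun m1 : ℤ => if InCl c (n1, m1) then
    PowerSeries.coeff j (XX ((z⁻¹:ℝ):ℂ) ((n1, m1), a) ((k - n1, m - m1), a')) else 0) ∧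
  (MM z k m n1 ≠ 0 → (n1 ≠ 0 ∨ c % 6 ≠ 0) → (k - n1 ≠ 0 ∨ (m - c + 3 * k) % 6 ≠ 0) →
    gX z c a a' j k m n1 = ((2 * (FX z a a' j (MM z k m n1)
      (eSg z (c - 3 * n1) n1 (k - n1) m) (eU z (c - 3 * n1) n1 2) (eU z (c - 3 * n1) n1 3)
      (eW z (m - c + 3 * n1) (k - n1) 2) (eW z (m - c + 3 * n1) (k - n1) 3)).im : ℝ) : ℂ) * Complex.I)

/-- (EC2) `gX` for `M = 0` (`m = 0`, `k = 2 n1`, `n1 ≠ 0`). -/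
def EC2 : Prop := ∃ C : ℝ, 0 < C ∧ ∀ z : ℝ, 1 ≤ z → ∀ (c a a' : ℤ) (j : ℕ) (n1 : ℤ), j ≤ 2 →
  |a| ≤ 1 → |a'| ≤ 1 → n1 ≠ 0 → ‖gX z c a a' j (2 * n1) 0 n1‖ ≤ C * z ^ 4 * ewt z n1

/-- (EC3) Fubini: `Xs` is the sum of `gX` over `n1`. -/
def EC3 : Prop := ∀ z : ℝ, 0 < z → ∀ (c c' a a' : ℤ) (j : ℕ) (s : ℤ × ℤ), |a| ≤ 1 → |a'| ≤ 1 →
  j ≤ 2 → s ≠ 0 → InCl (c + c') s →
  HasSum (fun n1 : ℤ => gX z c a a' j s.1 s.2 n1) (Xs z⁻¹ c c' a a' j s)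

/-! ## Block ED: main terms -/

/-- main term of `gX` for `Y` -/
noncomputable def gY0 (z : ℝ) (k m n1 : ℤ) : ℂ :=
  ((2 * (FX z 1 0 1 (MM z k m n1) (sU 1 n1 + sV 1 (k - n1))
    (if n1 = 0 then ((Real.pi ^ 2 / 9 : ℝ) : ℂ) else 0) 0
    (if k - n1 = 0 then ((Real.pi ^ 2 / 9 : ℝ) : ℂ) else 0) 0).im : ℝ) : ℂ) * Complex.I

/-- main term of `gX` for `W` -/
noncomputable def gW0 (z : ℝ) (k m n1 : ℤ) : ℂ :=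
  ((2 * (FX z 1 (-1) 1 (MM z k m n1) (sU 1 n1 + sV 3 (k - n1))
    (if n1 = 0 then ((Real.pi ^ 2 / 9 : ℝ) : ℂ) else 0) 0
    (if k - n1 = 0 then ((Real.pi ^ 2 / 36 : ℝ) : ℂ) else 0) 0).im : ℝ) : ℂ) * Complex.I

/-- main term of `gX` for `E_j` -/
noncomputable def gE0 (z : ℝ) (j : ℕ) (k m n1 : ℤ) : ℂ :=
  ((2 * (FX z 1 (-1) j (MM z k m n1) (sU 1 n1 + sV 5 (k - n1))
    (if n1 = 0 then ((Real.pi ^ 2 / 9 : ℝ) : ℂ) else 0) (if n1 = 0 then (eZ13 : ℂ) else 0)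
    (if k - n1 = 0 then ((Real.pi ^ 2 / 9 : ℝ) : ℂ) else 0)
    (if k - n1 = 0 then -(eZ13 : ℂ) else 0)).im : ℝ) : ℂ) * Complex.I

/-- main term of `E_0` (real, without `i z²`) -/
noncomputable def eE0 (z : ℝ) (s : ℤ × ℤ) : ℝ := -(4 * ew1 * z * ((s.1:ℝ) / eD z s))

/-- main term of `E_2` (real, without `i z²`) -/
noncomputable def eE2 (z : ℝ) (s : ℤ × ℤ) : ℝ :=
  -(8 * ew1 * z * ((s.1:ℝ) * z ^ 2 * (2 * (s.1:ℝ) ^ 2 * z ^ 2 - 6 * (s.2:ℝ) ^ 2) / eD z s ^ 3))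
    + 4 * eZ13 * z ^ 3 * ((s.1:ℝ) / eD z s)

/-- (ED1) sum of the main terms for `Y`. -/
def ED1 : Prop := ∀ z : ℝ, 0 < z → ∀ k m : ℤ, m ≠ 0 →
  HasSum (gY0 z k m) (Complex.I * (z:ℂ) ^ 2 * (eY z (k, m) : ℂ))

/-- (ED2) sum of the main terms for `W` at `(-k,-m)`. -/
def ED2 : Prop := ∀ z : ℝ, 0 < z → ∀ k m : ℤ, m ≠ 0 →
  HasSum (gW0 z (-k) (-m)) (Complex.I * (z:ℂ) ^ 2 * ((eY z (k, m) + eV z (k, m) : ℝ) : ℂ))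

/-- (ED3) sum of the main terms for `E_0`, `E_2`. -/
def ED3 : Prop := ∀ z : ℝ, 0 < z → ∀ k m : ℤ, k ≠ 0 →
  HasSum (gE0 z 0 k m) (Complex.I * (z:ℂ) ^ 2 * (eE0 z (k, m) : ℂ)) ∧
  HasSum (gE0 z 2 k m) (Complex.I * (z:ℂ) ^ 2 * (eE2 z (k, m) : ℂ))

/-- (ED4) errors for `Y`, `W`. -/
def ED4 : Prop := ∃ C : ℝ, 0 < C ∧ ∀ z : ℝ, 1 ≤ z → ∀ s : ℤ × ℤ, InCl 2 s →
  ‖Yc z⁻¹ s - Complex.I * (z:ℂ) ^ 2 * (eY z s : ℂ)‖ ≤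
    C * z ^ 4 * Real.exp (-(Real.pi / 3 * z)) / |(s.2:ℝ)| ∧
  ‖(Wc z⁻¹ s - Yc z⁻¹ s) - Complex.I * (z:ℂ) ^ 2 * (eV z s : ℂ)‖ ≤
    C * z ^ 4 * Real.exp (-(Real.pi / 3 * z)) / |(s.2:ℝ)|

/-- (ED5) errors for `E_j`. -/
def ED5 : Prop := (∃ C : ℝ, 0 < C ∧ ∀ z : ℝ, 1 ≤ z → ∀ s : ℤ × ℤ, InCl 0 s → s.1 ≠ 0 →
  ‖Ec z⁻¹ 0 s - Complex.I * (z:ℂ) ^ 2 * (eE0 z s : ℂ)‖ ≤
    C * z ^ 4 * Real.exp (-(Real.pi / 3 * z)) / |(s.1:ℝ)| ∧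
  ‖Ec z⁻¹ 2 s - Complex.I * (z:ℂ) ^ 2 * (eE2 z s : ℂ)‖ ≤
    C * z ^ 4 * Real.exp (-(Real.pi / 3 * z)) / |(s.1:ℝ)|) ∧
  (∀ z : ℝ, 0 < z → ∀ s : ℤ × ℤ, InCl 0 s → s.1 = 0 → s ≠ 0 → Ec z⁻¹ 0 s = 0 ∧ Ec z⁻¹ 2 s = 0)

/-- (ED6) bounds of the main terms. -/
def ED6 : Prop := ∃ C : ℝ, 0 < C ∧ ∀ z : ℝ, 1 ≤ z → ∀ s : ℤ × ℤ,
  (s.2 ≠ 0 → |eY z s| ≤ C * z ^ 2 ∧ |eV z s| ≤ C * z ^ 2 ∧
    Summable (fun j : ℕ => (if j = 0 then (1 / 2 : ℝ) else 1) *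
    (|(s.1:ℝ)| + 2 * (j:ℝ)) / ((s.2:ℝ) ^ 2 + (|(s.1:ℝ)| + 2 * (j:ℝ)) ^ 2 * z ^ 2) ^ 2)) ∧
  (s.1 ≠ 0 → |eE0 z s| ≤ C * z ^ 3 / |(s.1:ℝ)| ∧ |eE2 z s| ≤ C * z ^ 3 / |(s.1:ℝ)|)

/-- (ED7) the `Λ0`-sum: the main terms. -/
theorem eE_mul (z : ℝ) (s : ℤ × ℤ) (hD : eD z s ≠ 0) : eE0 z s * eE2 z s =
    32 * ew1 ^ 2 * z ^ 2 * ((s.1:ℝ) ^ 2 * z ^ 2 * (2 * (s.1:ℝ) ^ 2 * z ^ 2 - 6 * (s.2:ℝ) ^ 2) / eD z s ^ 4)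
    - 16 * ew1 * eZ13 * z ^ 4 * ((s.1:ℝ) ^ 2 / eD z s ^ 2) := by
  unfold eE0 eE2
  field_simp
  ring

end EC237
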