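import Pool.Agent.Helper23.EC.DDefs

/-!
# MP_ecc237_nt, Part E: interface between E.1-E.5 (helper23) and E.6-E.13 (helper7).
Everything is real; `s = (k, m)`, `k` = first coordinate (n-part), `m` = second coordinate.
-/

set_option autoImplicit false

open MeasureTheory Filter Topology Set

namespace EC237

/-- `D = m² + k²z²` -/
noncomputable def eD (z : ℝ) (s : ℤ × ℤ) : ℝ := (s.2:ℝ) ^ 2 + (s.1:ℝ) ^ 2 * z ^ 2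

/-- `T = m z² Σ''_{A ≥ |k|, A ≡ k (2)} A/(m² + A²z²)²`, half weight at `A = |k|`; `A = |k| + 2j`. -/
noncomputable def eT (z : ℝ) (s : ℤ × ℤ) : ℝ :=
  (s.2:ℝ) * z ^ 2 * ∑' j : ℕ, (if j = 0 then (1 / 2 : ℝ) else 1) *
    (|(s.1:ℝ)| + 2 * (j:ℝ)) / ((s.2:ℝ) ^ 2 + (|(s.1:ℝ)| + 2 * (j:ℝ)) ^ 2 * z ^ 2) ^ 2

/-- `w1 = √3π/6` -/
noncomputable def ew1 : ℝ := Real.sqrt 3 * Real.pi / 6

/-- `w2 = π/(6√3)` -/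
noncomputable def ew2 : ℝ := Real.pi / (6 * Real.sqrt 3)

/-- `Z_13 = √3π³/54` -/
noncomputable def eZ13 : ℝ := Real.sqrt 3 * Real.pi ^ 3 / 54

/-- `𝒴r = (8π/3)T - 4w1zφ' - (2π²/9)zμ̂`, `φ' = (m²-k²z²)/D²`, `μ̂ = m/D`. -/
noncomputable def eY (z : ℝ) (s : ℤ × ℤ) : ℝ :=
  8 * Real.pi / 3 * eT z s - 4 * ew1 * z * (((s.2:ℝ) ^ 2 - (s.1:ℝ) ^ 2 * z ^ 2) / eD z s ^ 2)
    - 2 * Real.pi ^ 2 / 9 * z * ((s.2:ℝ) / eD z s)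

/-- `𝒱r = -8πT + (π²/2)zμ̂`. -/
noncomputable def eV (z : ℝ) (s : ℤ × ℤ) : ℝ :=
  -(8 * Real.pi * eT z s) + Real.pi ^ 2 / 2 * z * ((s.2:ℝ) / eD z s)

/-- the `Λ2`-sum: `Σ_{s∈Λ2} 𝒴r𝒱r/D`. -/
noncomputable def eS2 (z : ℝ) : ℝ := ∑' s : ℤ × ℤ, if InCl 2 s then eY z s * eV z s / eD z s else 0

/-- the `Λ0`-sum over `k ≠ 0`: `Σ (32w1²z²φφ'' - 16w1Z13z⁴φ²)/D`,
`φ = k/D`, `φ'' = kz²(2k²z²-6m²)/D³`. -/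
noncomputable def eS0 (z : ℝ) : ℝ := ∑' s : ℤ × ℤ, if InCl 0 s ∧ s.1 ≠ 0 then
  (32 * ew1 ^ 2 * z ^ 2 * ((s.1:ℝ) ^ 2 * z ^ 2 * (2 * (s.1:ℝ) ^ 2 * z ^ 2 - 6 * (s.2:ℝ) ^ 2) / eD z s ^ 4)
    - 16 * ew1 * eZ13 * z ^ 4 * ((s.1:ℝ) ^ 2 / eD z s ^ 2)) / eD z s else 0

/-- (E5) end of E.2: reduction to the explicit main terms. -/
def E5 : Prop := Tendsto (fun z : ℝ => (PhiB ((z⁻¹:ℝ):ℂ)).re - 2 / 3 * z ^ 3 * (eS2 z + eS0 z))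
  atTop (𝓝 0)

/-- (E6) E.3: the explicit main terms. -/
def E6 : Prop := ∃ P : Polynomial ℝ, P.coeff 0 = 0 ∧
  Tendsto (fun z : ℝ => 2 / 3 * z ^ 3 * (eS2 z + eS0 z) - P.eval z) atTop
    (𝓝 (Real.pi ^ 3 * zeta5 / 36))

theorem pe_of (h5 : E5) (h6 : E6) : PE := by
  obtain ⟨P, hP0, hP⟩ := h6
  refine ⟨P, hP0, ?_⟩
  have := Tendsto.add h5 hP
  rw [zero_add] at this
  refine this.congr (fun z => ?_)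
  ring

end EC237
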