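import Mathlib

/-!
# MP_ecc237_nt (S18871): definitions and interface statements (S1)-(S5) between the parts of the proof.
Paper: team store, `ecc237_part0.md`, `ecc237_partI.md`, `ecc237_partB.md`, `ecc237_partC.md`,
`ecc237_partD.md`, `ecc237_partE.md`, `ecc237_partF.md`.
-/

set_option autoImplicit false

open MeasureTheory Filter Topology Set

namespace EC237

/-- The odd Dirichlet character modulo 3. -/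
noncomputable def chi (m : ℤ) : ℝ :=
  if m % 3 = 1 then 1 else if m % 3 = 2 then -1 else 0

/-- `I_0`, in the form of the frozen statement. -/
noncomputable def Ib (t : ℝ) : ℝ :=
  (1 / Real.pi) * ∫ θ in (0:ℝ)..Real.pi, Real.exp (t * Real.cos θ)

/-- `K_0`, in the form of the frozen statement. -/
noncomputable def Kb (t : ℝ) : ℝ := ∫ u in Set.Ioi (0:ℝ), Real.exp (-(t * Real.cosh u))

/-- The eta product, in the form of the frozen statement. -/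
noncomputable def ff (y : ℝ) : ℝ :=
  Real.exp (-(2 * Real.pi * y)) *
    ∏' n : ℕ, ((1 - Real.exp (-(2 * Real.pi * ((n:ℝ) + 1) * y))) *
               (1 - Real.exp (-(4 * Real.pi * ((n:ℝ) + 1) * y))) *
               (1 - Real.exp (-(6 * Real.pi * ((n:ℝ) + 1) * y))) *
               (1 - Real.exp (-(12 * Real.pi * ((n:ℝ) + 1) * y)))) ^ 2

/-- `L(δ) = -log(δ/2) - γ`. -/
noncomputable def Ld (δ : ℝ) : ℝ := -Real.log (δ / 2) - Real.eulerMascheroniConstant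

/-- `ζ(5)`. -/
noncomputable def zeta5 : ℝ := ∑' n : ℕ, 1 / ((n:ℝ) + 1) ^ 5

/-- The regularised integral over `(0,∞)` of `F` (integrable at `∞`) is `V`. -/
def RegInt (F : ℝ → ℝ) (V : ℝ) : Prop :=
  (∀ ε : ℝ, 0 < ε → IntegrableOn F (Ioi ε)) ∧
  ∃ P : Polynomial ℝ, P.coeff 0 = 0 ∧
    Tendsto (fun ε : ℝ => (∫ y in Ioi ε, F y) - P.eval ε⁻¹) (𝓝[>] 0) (𝓝 V)

/-- `r(x)`. -/
noncomputable def rr (x : ℝ) : ℝ :=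
  ∫ v in Ioi (4:ℝ), 1 / Real.sqrt (v * (v - 4) * ((v + x ^ 2 - 1) ^ 2 + 4 * x ^ 2))

/-- `b(x) = ∫_0^x r(ξ) ξ dξ`. -/
noncomputable def bb (x : ℝ) : ℝ := ∫ ξ in (0:ℝ)..x, rr ξ * ξ

/-- sign `(-1)^{ν(M-1)}` with `M = p.1+1`, `ν = p.2+1`. -/
noncomputable def sgn2 (p : ℕ × ℕ) : ℝ := (-1) ^ ((p.2 + 1) * p.1)

/-- `Q^{Mν}`, `Q = e^{-πy}`, `M = p.1+1`, `ν = p.2+1`. -/
noncomputable def QQ (y : ℝ) (p : ℕ × ℕ) : ℝ :=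
  Real.exp (-(Real.pi * ((p.1:ℝ) + 1) * ((p.2:ℝ) + 1) * y))

/-- `D1(y) = π³ Σ χ(M) ν² (-1)^{ν(M-1)} Q^{Mν}`. -/
noncomputable def D1 (y : ℝ) : ℝ :=
  Real.pi ^ 3 * ∑' p : ℕ × ℕ, chi ((p.1:ℤ) + 1) * ((p.2:ℝ) + 1) ^ 2 * sgn2 p * QQ y p

/-- `n1(y) = -∫_y^∞ D1`. -/
noncomputable def n1 (y : ℝ) : ℝ := -∫ t in Ioi y, D1 t

/-- coefficient `3·1_{3∣M} - 1`, `M = p.1+1`. -/
noncomputable def c3 (p : ℕ × ℕ) : ℝ := if (p.1 + 1) % 3 = 0 then 2 else -1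

/-- `σ'(y) - π²/4 = -π² Σ (3·1_{3∣M}-1) (-1)^{ν(M-1)} ν Q^{Mν}`. -/
noncomputable def sgp0 (y : ℝ) : ℝ :=
  -(Real.pi ^ 2 * ∑' p : ℕ × ℕ, c3 p * sgn2 p * ((p.2:ℝ) + 1) * QQ y p)

/-- `σ'(y)`. -/
noncomputable def sgp (y : ℝ) : ℝ := Real.pi ^ 2 / 4 + sgp0 y

/-- `σ(y)`. -/
noncomputable def sg (y : ℝ) : ℝ :=
  Real.pi ^ 2 / 4 * y - Real.pi / 2 * Real.log 3 - ∫ t in Ioi y, sgp0 t

/-- `L(κ) = m + 3n ≡ r (mod 6)` for `κ = (n, m)`. -/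
def InCl (r : ℤ) (k : ℤ × ℤ) : Prop := (k.2 + 3 * k.1 - r) % 6 = 0

instance (r : ℤ) (k : ℤ × ℤ) : Decidable (InCl r k) := by unfold InCl; infer_instance

/-- `N(κ) = n² + m²y²`. -/
noncomputable def Nn (y : ℝ) (k : ℤ × ℤ) : ℝ := (k.1:ℝ) ^ 2 + (k.2:ℝ) ^ 2 * y ^ 2

/-- `M_0(y) = Σ_{L≡1} m h²`, `h = y/N`. -/
noncomputable def M0 (y : ℝ) : ℝ :=
  ∑' k : ℤ × ℤ, if InCl 1 k then (k.2:ℝ) * y ^ 2 / Nn y k ^ 2 else 0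

/-- `M_2(y) = Σ_{L≡1} m [x²] h(κ-x)²`. -/
noncomputable def M2 (y : ℝ) : ℝ :=
  ∑' k : ℤ × ℤ, if InCl 1 k then
    (k.2:ℝ) * y ^ 2 * (10 * (k.1:ℝ) ^ 2 - 2 * (k.2:ℝ) ^ 2 * y ^ 2) / Nn y k ^ 4 else 0

/-- the limit defining `J24`. -/
def IsJ24 (J : ℝ) : Prop :=
  Tendsto (fun δ : ℝ => (∫ t in Ioi δ, Ib t ^ 2 * Kb t ^ 4 / t) - Ld δ ^ 5 / 5) (𝓝[>] 0) (𝓝 J)

/-- the limit defining `J_x`. -/
def IsJx (V : ℝ) : Prop :=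
  Tendsto (fun X : ℝ => (∫ x in (0:ℝ)..X, bb x ^ 2 / x) - Real.log X ^ 5 / 5) atTop (𝓝 V)

/-- (S1), Part I. -/
def S1 : Prop :=
  ∃ J : ℝ, IsJ24 J ∧
    (∫ t in Set.Ioi (0:ℝ), Kb t ^ 6 * t) * (∫ t in Set.Ioi (0:ℝ), Ib t ^ 2 * Kb t ^ 4 * t ^ 3)
      - (∫ t in Set.Ioi (0:ℝ), Kb t ^ 6 * t ^ 3) * (∫ t in Set.Ioi (0:ℝ), Ib t ^ 2 * Kb t ^ 4 * t)
      = 5 / 16 * J

/-- (S2), Part B. -/
def S2 : Prop := ∀ J : ℝ, IsJ24 J → IsJx (J + zeta5 / 20)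

/-- (S3), Part C. -/
def S3 : Prop := ∀ V : ℝ, IsJx V → RegInt (fun y => n1 y ^ 2 * sgp y) (2 * Real.pi ^ 3 / 3 * V)

/-- (S3n), Part C: behaviour of `n1` at `0`. -/
def S3n : Prop := ∃ C c : ℝ, 0 < c ∧ ∀ y : ℝ, 0 < y → y ≤ 1 →
  |n1 y + Real.sqrt 3 * Real.pi ^ 3 / 54 * (y⁻¹) ^ 2| ≤ C * Real.exp (-(c / y))

/-- (S3s), Part C: behaviour of `σ` at `0`. -/
def S3s : Prop := ∃ C c : ℝ, 0 < c ∧ ∀ y : ℝ, 0 < y → y ≤ 1 →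
  |sg y + Real.pi ^ 2 / 12 * y⁻¹| ≤ C * Real.exp (-(c / y))

/-- (S4), Parts D and E. -/
def S4 : Prop := ∀ W : ℝ, RegInt (fun y => M0 y * M2 y) W →
  RegInt (fun y => n1 y ^ 2 * sgp y) (Real.pi ^ 3 * zeta5 / 18 + 8 * W)

/-- (S5), Part F. -/
def S5 : Prop := RegInt (fun y => M0 y * M2 y)
  (3 / 40 * Real.pi ^ 6 * (32 * ∫ y in Set.Ioi (0:ℝ), ff y * y ^ 4) - Real.pi ^ 3 * zeta5 / 360)

/-- (S3d), Part C: behaviour of `D1` at `0`. -/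
def S3d : Prop := ∃ C c : ℝ, 0 < c ∧ ∀ y : ℝ, 0 < y → y ≤ 1 →
  |D1 y - Real.sqrt 3 * Real.pi ^ 3 / 27 * (y⁻¹) ^ 3| ≤ C * Real.exp (-(c / y))

/-- (S5a), Part F: behaviour of `M0`, `M2` at `0` and at `∞`. -/
def S5a : Prop := (∃ Z5 C c : ℝ, 0 < c ∧ ∀ y : ℝ, 0 < y → y ≤ 1 →
    |M0 y - Real.sqrt 3 * Real.pi ^ 3 / 54 * (y⁻¹) ^ 2| ≤ C * Real.exp (-(c / y)) ∧
    |M2 y + 2 * Z5 * (y⁻¹) ^ 4| ≤ C * Real.exp (-(c / y))) ∧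
  Tendsto (fun y : ℝ => y * (M0 y * M2 y)) atTop (𝓝 0)

end EC237
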