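import Pool.Agent.Helper23.EC.Interface

set_option autoImplicit false

open MeasureTheory Filter Topology Set

namespace EC237

/-- A polynomial in `1/ε` without constant term which converges as `ε → 0+` is zero. -/
theorem poly_zero {P : Polynomial ℝ} (h0 : P.coeff 0 = 0) {c : ℝ}
    (h : Tendsto (fun ε : ℝ => P.eval ε⁻¹) (𝓝[>] 0) (𝓝 c)) : c = 0 := by
  have h1 : Tendsto (fun x : ℝ => P.eval x) atTop (𝓝 c) := by
    have h2 := h.comp tendsto_inv_atTop_nhdsGT_zero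
    refine h2.congr' ?_
    filter_upwards with x
    simp
  have hdeg : P.degree ≤ 0 := by
    by_contra hd
    push Not at hd
    rcases le_or_gt 0 P.leadingCoeff with hl | hl
    · exact not_tendsto_nhds_of_tendsto_atTop (P.tendsto_atTop_of_leadingCoeff_nonneg hd hl) c h1
    · exact not_tendsto_nhds_of_tendsto_atBot (P.tendsto_atBot_of_leadingCoeff_nonpos hd hl.le) c h1
  have hP : P = Polynomial.C (P.coeff 0) := Polynomial.eq_C_of_degree_le_zero hdeg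
  rw [h0] at hP
  have : P = 0 := by rw [hP]; simp
  subst this
  simp only [Polynomial.eval_zero] at h1
  exact (tendsto_nhds_unique h1 tendsto_const_nhds)

/-- uniqueness of regularised integrals -/
theorem RegInt.unique {F : ℝ → ℝ} {V W : ℝ} (h1 : RegInt F V) (h2 : RegInt F W) : V = W := by
  obtain ⟨_, P, hP, hPt⟩ := h1
  obtain ⟨_, R, hR, hRt⟩ := h2
  have h : Tendsto (fun ε : ℝ => (R - P).eval ε⁻¹) (𝓝[>] 0) (𝓝 (V - W)) := by
    refine (hPt.sub hRt).congr ?_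
    intro ε
    simp [Polynomial.eval_sub]
  have := poly_zero (P := R - P) (by simp [hP, hR]) h
  linarith

/-- the final algebra -/
theorem det_of (h1 : S1) (h2 : S2) (h3 : S3) (h4 : S4) (h5 : S5) :
    (∫ t in Set.Ioi (0:ℝ), Kb t ^ 6 * t) * (∫ t in Set.Ioi (0:ℝ), Ib t ^ 2 * Kb t ^ 4 * t ^ 3)
      - (∫ t in Set.Ioi (0:ℝ), Kb t ^ 6 * t ^ 3) * (∫ t in Set.Ioi (0:ℝ), Ib t ^ 2 * Kb t ^ 4 * t)
      = 27 / (4 * Real.pi ^ 2) *
          ((2 * Real.pi) ^ 5 / 24 * ∫ y in Set.Ioi (0:ℝ), ff y * y ^ 4) := by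
  obtain ⟨J, hJ, hD⟩ := h1
  rw [hD]
  have hR1 := h3 _ (h2 J hJ)
  have hR2 := h4 _ h5
  have hU := hR1.unique hR2
  have hpi : Real.pi ≠ 0 := Real.pi_ne_zero
  have hJ' : J = 144 / 5 * Real.pi ^ 3 * ∫ y in Set.Ioi (0:ℝ), ff y * y ^ 4 := by
    have h3pi : (0:ℝ) < Real.pi ^ 3 := by positivity
    generalize hF : (∫ y in Set.Ioi (0:ℝ), ff y * y ^ 4) = F5 at *
    have e1 : Real.pi ^ 3 * (2 / 3 * (J + zeta5 / 20)) =
        Real.pi ^ 3 * (zeta5 / 18 + 8 * (3 / 40 * Real.pi ^ 3 * (32 * F5) - zeta5 / 360)) := by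
      ring_nf; ring_nf at hU; linarith
    have e2 := mul_left_cancel₀ h3pi.ne' e1
    linarith
  rw [hJ']
  field_simp
  ring

/-- the frozen statement from (S1)-(S5) -/
theorem frozen_of (h1 : S1) (h2 : S2) (h3 : S3) (h4 : S4) (h5 : S5) :
  ∀ (I K f : ℝ → ℝ),
    (∀ t : ℝ, I t = (1 / Real.pi) * ∫ θ in (0:ℝ)..Real.pi, Real.exp (t * Real.cos θ)) →
    (∀ t : ℝ, K t = ∫ u in Set.Ioi (0:ℝ), Real.exp (-(t * Real.cosh u))) →
    (∀ y : ℝ, f y = Real.exp (-(2 * Real.pi * y)) *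
        ∏' n : ℕ, ((1 - Real.exp (-(2 * Real.pi * ((n:ℝ) + 1) * y))) *
                   (1 - Real.exp (-(4 * Real.pi * ((n:ℝ) + 1) * y))) *
                   (1 - Real.exp (-(6 * Real.pi * ((n:ℝ) + 1) * y))) *
                   (1 - Real.exp (-(12 * Real.pi * ((n:ℝ) + 1) * y)))) ^ 2) →
    (∫ t in Set.Ioi (0:ℝ), K t ^ 6 * t) * (∫ t in Set.Ioi (0:ℝ), I t ^ 2 * K t ^ 4 * t ^ 3)
      - (∫ t in Set.Ioi (0:ℝ), K t ^ 6 * t ^ 3) * (∫ t in Set.Ioi (0:ℝ), I t ^ 2 * K t ^ 4 * t)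
      = 27 / (4 * Real.pi ^ 2) *
          ((2 * Real.pi) ^ 5 / 24 * ∫ y in Set.Ioi (0:ℝ), f y * y ^ 4) := by
  intro I K f hI hK hf
  have e1 : I = Ib := funext fun t => by rw [hI t]; rfl
  have e2 : K = Kb := funext fun t => by rw [hK t]; rfl
  have e3 : f = ff := funext fun y => by rw [hf y]; rfl
  subst e1 e2 e3
  exact det_of h1 h2 h3 h4 h5

end EC237
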