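import Pool.Agent.Helper23.EC.D15
import Pool.Agent.Helper6.EC.D_A1
import Pool.Agent.Helper28.EC.D_A2
import Pool.Agent.Helper8.EC.D_A3
import Pool.Agent.Helper18.EC.D_A4
import Pool.Agent.Helper10.EC.D_A5
import Pool.Agent.Helper70.EC.D_A6
import Pool.Agent.Helper45.EC.D_B1
import Pool.Agent.Helper39.EC.D_B2
import Pool.Agent.Helper28.EC.D_B3
import Pool.Agent.Helper63.EC.D_B4
import Pool.Agent.Helper10.EC.D_B5
import Pool.Agent.Helper5.EC.D_B6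
import Pool.Agent.Helper7.EC.D_B7
import Pool.Agent.Helper25.EC.D_B8
import Pool.Agent.Helper45.EC.D_N1
import Pool.Agent.Helper20.EC.D_N2
import Pool.Agent.Helper81.EC.D_N3
import Pool.Agent.Helper87.EC.D_N4
import Pool.Agent.Helper87.EC.D_N5
import Pool.Agent.Helper40.EC.D_N6
import Pool.Agent.Helper3.EC.D_N7
import Pool.Agent.Helper76.EC.D_N8
import Pool.Agent.Helper2.EC.D_N9
import Pool.Agent.Helper53.EC.D_N10
import Pool.Agent.Helper88.EC.D_N11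
import Pool.Agent.Helper88.EC.D_N12
import Pool.Agent.Helper3.EC.D_N13
import Pool.Agent.Helper18.EC.D_MPA
import Pool.Agent.Helper50.EC.D_MPB
import Pool.Agent.Helper10.EC.D_M1
import Pool.Agent.Helper86.EC.D_M2p
import Pool.Agent.Helper88.EC.D_M3
import Pool.Agent.Helper81.EC.D_M4
import Pool.Agent.Helper25.EC.D_MVA
import Pool.Agent.Helper10.EC.D_MVB
import Pool.Agent.Helper45.EC.D_MVC
import Pool.Agent.Helper8.EC.D_R1
import Pool.Agent.Helper8.EC.D_R2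
import Pool.Agent.Helper85.EC.D_R3

/-!
# MP_ecc237_nt, Part D: all packets put together.
-/

set_option autoImplicit false

namespace EC237.PartD

theorem a1 : A1 := Pool.Agent.Helper6.EC.D_A1.thm
theorem a2 : A2 := Pool.Agent.Helper28.EC.D_A2.thm a1
theorem a3 : A3 := Pool.Agent.Helper8.EC.D_A3.thm a1
theorem a4 : A4 := Pool.Agent.Helper18.EC.D_A4.thm a1
theorem a5 : A5 := Pool.Agent.Helper10.EC.D_A5.thm a1
theorem a6 : A6 := Pool.Agent.Helper70.EC.D_A6.thm a1 a2 a3 a4 a5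
theorem b1 : B1 := Pool.Agent.Helper45.EC.D_B1.thm
theorem b2 : B2 := Pool.Agent.Helper39.EC.D_B2.thm a1 b1
theorem b3 : B3 := Pool.Agent.Helper28.EC.D_B3.thm b1 b2
theorem b4 : B4 := Pool.Agent.Helper63.EC.D_B4.thm
theorem b5 : B5 := Pool.Agent.Helper10.EC.D_B5.thm a1 b1 b2
theorem b6 : B6 := Pool.Agent.Helper5.EC.D_B6.thm a1 b1
theorem b7 : B7 := Pool.Agent.Helper7.EC.D_B7.thm a1 a6 b1 b3 b4 b6
theorem b8 : B8 := Pool.Agent.Helper25.EC.D_B8.thm a1 a3 b1 b4 b5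
theorem n1 : N1 := Pool.Agent.Helper45.EC.D_N1.thm a1
theorem n2 : N2 := Pool.Agent.Helper20.EC.D_N2.thm a1 n1
theorem n4 : N4 := Pool.Agent.Helper87.EC.D_N4.thm a1 n1
theorem n3 : N3 := Pool.Agent.Helper81.EC.D_N3.thm n1 n4
theorem n5 : N5 := Pool.Agent.Helper87.EC.D_N5.thm a1 n1 n2
theorem n6 : N6 := Pool.Agent.Helper40.EC.D_N6.thm n1 n4
theorem n7 : N7 := Pool.Agent.Helper3.EC.D_N7.thm n4 n6
theorem n8 : N8 := Pool.Agent.Helper76.EC.D_N8.thm n7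
theorem n9 : N9 := Pool.Agent.Helper2.EC.D_N9.thm n1 n2 n3 n4 n5
theorem n10 : N10 := Pool.Agent.Helper53.EC.D_N10.thm b7 n9
theorem n11 : N11 := Pool.Agent.Helper88.EC.D_N11.thm b1 b4 b5 n2
theorem n12 : N12 := Pool.Agent.Helper88.EC.D_N12.thm n4 n6 n7
theorem n13 : N13 := Pool.Agent.Helper3.EC.D_N13.thm n5 n11
theorem mpa : MPA := Pool.Agent.Helper18.EC.D_MPA.thm n4 n5 n12 n13
theorem mpb : MPB := Pool.Agent.Helper50.EC.D_MPB.thm n4 n5 n12 n13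
theorem m1 : M1 := Pool.Agent.Helper10.EC.D_M1.thm n3 n4 n7 n8
theorem m2p : M2' := Pool.Agent.Helper86.EC.D_M2p.thm n4 n7 n8
theorem m3 : M3 := Pool.Agent.Helper88.EC.D_M3.thm n4 n7 m1 m2p
theorem m4 : M4 := Pool.Agent.Helper81.EC.D_M4.thm m3
theorem mva : MVA := Pool.Agent.Helper25.EC.D_MVA.thm n4 n5 m3 m4
theorem mvb : MVB := Pool.Agent.Helper10.EC.D_MVB.thm n4 n5 n7 m3 m4
theorem mvc : MVC := Pool.Agent.Helper45.EC.D_MVC.thm n3 n4 n5 m3 m4
theorem r1 : R1 := Pool.Agent.Helper8.EC.D_R1.thm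
theorem r2 : R2 := Pool.Agent.Helper8.EC.D_R2.thm a1 r1
theorem r3 : R3 := Pool.Agent.Helper85.EC.D_R3.thm b6 r1 r2

/-- (D.15), unconditional. -/
theorem d15 : D15 := d15_of b7 n10 mpa mpb mva mvb mvc r1 r3

end EC237.PartD
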