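import Pool.Agent.Helper23.EC.Pre
import Pool.Agent.Helper38.EC.D16
import Pool.Agent.Helper80.EC_D.All

/-!
# MP_ecc237_nt: the frozen statement from (E).
-/

set_option autoImplicit false

open MeasureTheory Filter Topology Set

namespace EC237

theorem pre2 (hPE : PE) :
  ∀ (I K f : ℝ → ℝ),
    (∀ t : ℝ, I t = (1 / Real.pi) * ∫ θ in (0:ℝ)..Real.pi, Real.exp (t * Real.cos θ)) →
    (∀ t : ℝ, K t = ∫ u in Set.Ioi (0:ℝ), Real.exp (-(t * Real.cosh u))) →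
    (∀ y : ℝ, f y = Real.exp (-(2 * Real.pi * y)) *
        ∏' n : ℕ, ((1 - Real.exp (-(2 * Real.pi * ((n:ℝ) + 1) * y))) *
                   (1 - Real.exp (-(4 * Real.pi * ((n:ℝ) + 1) * y))) *
                   (1 - Real.exp (-(6 * Real.pi * ((n:ℝ) + 1) * y))) *
                   (1 - Real.exp (-(12 * Real.pi * ((n:ℝ) + 1) * y)))) ^ 2) →
    (∫ t in Set.Ioi (0:ℝ), K t ^ 6 * t) * (∫ t in Set.Ioi (0:ℝ), I t ^ 2 * K t ^ 4 * t ^ 3)
      - (∫ t in Set.Ioi (0:ℝ), K t ^ 6 * t ^ 3) * (∫ t in Set.Ioi (0:ℝ), I t ^ 2 * K t ^ 4 * t)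
      = 27 / (4 * Real.pi ^ 2) *
          ((2 * Real.pi) ^ 5 / 24 * ∫ y in Set.Ioi (0:ℝ), f y * y ^ 4) :=
  pre PD.d13 D16_holds hPE

end EC237
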